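import Pool.Agent.Helper54.SO.JF

/-! Project SO: piece B, the barrier. -/

namespace Pool.Agent.Helper54.SO

open Filter Topology Set

noncomputable section

section
variable {V E : Type*} [NormedAddCommGroup V] [NormedSpace ℝ V] [FiniteDimensional ℝ V]
    [NormedAddCommGroup E] [InnerProductSpace ℝ E] [FiniteDimensional ℝ E] {k T : ℝ}

theorem JF.stmtB (D : JF V E k T) : D.StmtB := by
  intro ξ t ht A hA horth hJA
  have htT : t ∈ Ioo (-T) T := ⟨by linarith [ht.1, ht.2], ht.2⟩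
  set R := LinearMap.range (D.J t).toLinearMap with hR
  set τ : E := R.starProjection (D.J1 t A) with hτ
  have hτR : τ ∈ R := by rw [hτ]; exact Submodule.starProjection_apply_mem _ _
  obtain ⟨C, hC⟩ := hτR
  have hC' : D.J t C = τ := hC
  -- inner products with range elements
  have hproj : ∀ B, inner ℝ (D.J1 t A) (D.J t B) = inner ℝ τ (D.J t B) := by
    intro B
    have h1 : D.J1 t A - τ ∈ Rᗮ := by
      rw [hτ]; exact Submodule.sub_starProjection_mem_orthogonal _
    have h2 : D.J t B ∈ R := ⟨B, rfl⟩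
    have := (Submodule.mem_orthogonal _ _).1 h1 _ h2
    rw [inner_sub_right, real_inner_comm, real_inner_comm τ] at this
    linarith
  set lam : ℝ := ξ C with hlam
  set B₁ : V := C - lam • A with hB₁
  have hξB₁ : ξ B₁ = 0 := by
    rw [hB₁, map_sub, map_smul, hA, smul_eq_mul, mul_one, sub_self]
  have hτ2 : τ = lam • D.J t A + D.J t B₁ := by
    rw [hB₁, map_sub, map_smul, hC']; abel
  set n : ℝ := ‖D.J t A‖ with hn
  have hn0 : 0 < n := norm_pos_iff.2 hJA
  set β : ℝ := ‖D.J t B₁‖ ^ 2 with hβ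
  have hβ0 : 0 ≤ β := by positivity
  have hAA : inner ℝ (D.J t A) (D.J t A) = n ^ 2 := real_inner_self_eq_norm_sq _
  have hAB : inner ℝ (D.J t A) (D.J t B₁) = 0 := horth B₁ hξB₁
  have hBB : inner ℝ (D.J t B₁) (D.J t B₁) = β := real_inner_self_eq_norm_sq _
  have hτn : ‖τ‖ ^ 2 = lam ^ 2 * n ^ 2 + β := by
    rw [← real_inner_self_eq_norm_sq, hτ2]
    simp only [inner_add_left, inner_add_right, inner_smul_left, inner_smul_right,
      RCLike.conj_to_real]
    rw [real_inner_comm (D.J t A) (D.J t B₁), hAA, hAB, hBB]; ring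
  set B : V := (-2 : ℝ) • B₁ with hB
  have hξB : ξ B = 0 := by rw [hB, map_smul, hξB₁, smul_zero]
  have h1AB : inner ℝ (D.J1 t A) (D.J t B) = -2 * β := by
    rw [hproj, hτ2, hB, map_smul]
    simp only [inner_add_left, inner_smul_left, inner_smul_right, RCLike.conj_to_real]
    rw [hAB, hBB]; ring
  have h1AA : inner ℝ (D.J1 t A) (D.J t A) = lam * n ^ 2 := by
    rw [hproj, hτ2]
    simp only [inner_add_left, inner_smul_left, RCLike.conj_to_real]
    rw [real_inner_comm (D.J t A) (D.J t B₁), hAA, hAB]; ring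
  have hJB : ‖D.J t B‖ ^ 2 = 4 * β := by
    rw [hB, map_smul, norm_smul, hβ]
    have : ‖(-2 : ℝ)‖ = 2 := by norm_num
    rw [this]; ring
  have hcurv : inner ℝ (D.J2 t A) (D.J t A) + ‖D.J1 t A‖ ^ 2 ≤ ‖τ‖ ^ 2 + k ^ 2 * n ^ 2 :=
    D.curv t ht A
  rw [hτn] at hcurv
  -- the curve
  set w : ℝ → E := fun s => D.J s A + (s - t) • D.J s B with hw
  set w' : ℝ → E := fun s => D.J1 s A + ((s - t) • D.J1 s B + (1 : ℝ) • D.J s B) with hw'
  have hJd : ∀ s ∈ Ioo (-T) T, ∀ X : V, HasDerivAt (fun s => D.J s X) (D.J1 s X) s := fun s hs X => by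
    simpa using (D.d0 s hs).clm_apply (hasDerivAt_const s X)
  have hJ1d : ∀ s ∈ Ioo (-T) T, ∀ X : V, HasDerivAt (fun s => D.J1 s X) (D.J2 s X) s :=
    fun s hs X => by
      simpa using (D.d1 s hs).clm_apply (hasDerivAt_const s X)
  have hid : ∀ s, HasDerivAt (fun s : ℝ => s - t) 1 s := fun s => (hasDerivAt_id s).sub_const t
  have hwd : ∀ s ∈ Ioo (-T) T, HasDerivAt w (w' s) s := fun s hs =>
    (hJd s hs A).add ((hid s).smul (hJd s hs B))
  have hw'd : HasDerivAt w' (D.J2 t A + (2 : ℝ) • D.J1 t B) t := by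
    have h1 := (hJ1d t htT A).add
      (((hid t).smul (hJ1d t htT B)).add ((hJd t htT B).const_smul (1 : ℝ)))
    have h2 : D.J2 t A + (2 : ℝ) • D.J1 t B =
        D.J2 t A + ((t - t) • D.J2 t B + (1 : ℝ) • D.J1 t B + (1 : ℝ) • D.J1 t B) := by
      rw [sub_self, zero_smul, zero_add, one_smul, two_smul]
    rw [h2]; exact h1
  have hwt : w t = D.J t A := by simp [hw]
  have hw't : w' t = D.J1 t A + D.J t B := by simp [hw']
  have hwt0 : w t ≠ 0 := by rw [hwt]; exact hJA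
  have hne : ∀ᶠ s in 𝓝 t, w s ≠ 0 := (hwd t htT).continuousAt.eventually_ne hwt0
  have hq : ∀ s ∈ Ioo (-T) T, HasDerivAt (fun s => inner ℝ (w s) (w s)) (2 * inner ℝ (w s) (w' s)) s := by
    intro s hs
    have := (hwd s hs).inner ℝ (hwd s hs)
    have h3 : 2 * inner ℝ (w s) (w' s) = inner ℝ (w s) (w' s) + inner ℝ (w' s) (w s) := by
      rw [real_inner_comm (w' s) (w s)]; ring
    rw [h3]; exact this
  have hzd : ∀ s ∈ Ioo (-T) T, w s ≠ 0 → HasDerivAt (fun s => ‖w s‖) (inner ℝ (w s) (w' s) / ‖w s‖) s := by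
    intro s hs hws
    have hpos : inner ℝ (w s) (w s) ≠ 0 := by
      rw [real_inner_self_eq_norm_sq]; exact pow_ne_zero _ (norm_ne_zero_iff.2 hws)
    have h4 := (hq s hs).sqrt hpos
    have h5 : (fun s => ‖w s‖) = fun s => √(inner ℝ (w s) (w s)) := by
      funext r; rw [norm_eq_sqrt_real_inner]
    have h6 : inner ℝ (w s) (w' s) / ‖w s‖ = 2 * inner ℝ (w s) (w' s) / (2 * √(inner ℝ (w s) (w s))) := by
      rw [← norm_eq_sqrt_real_inner]
      have : ‖w s‖ ≠ 0 := norm_ne_zero_iff.2 hws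
      field_simp
    rw [h5, h6]; exact h4
  have hin : ∀ᶠ s in 𝓝 t, s ∈ Ioo (-T) T := Ioo_mem_nhds htT.1 htT.2
  have hnum : HasDerivAt (fun s => inner ℝ (w s) (w' s))
      (inner ℝ (w t) (D.J2 t A + (2 : ℝ) • D.J1 t B) + inner ℝ (w' t) (w' t)) t :=
    (hwd t htT).inner ℝ hw'd
  have hz' := hnum.div (hzd t htT hwt0) (norm_ne_zero_iff.2 hwt0)
  refine ⟨fun s => ‖w s‖, fun s => inner ℝ (w s) (w' s) / ‖w s‖, _, ?_, ?_, ?_, hz', ?_⟩
  · intro s
    refine ⟨A + (s - t) • B, ?_, ?_⟩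
    · rw [map_add, map_smul, hA, hξB, smul_zero, add_zero]
    · simp only [hw, map_add, map_smul]
  · simp only [hwt]
    rfl
  · filter_upwards [hne, hin] with s h1 h2
    exact hzd s h2 h1
  · rw [hwt, hw't, ← hn]
    have e1 : inner ℝ (D.J t A) (D.J1 t A + D.J t B) = lam * n ^ 2 := by
      rw [inner_add_right, horth B hξB, real_inner_comm, h1AA, add_zero]
    have e2 : inner ℝ (D.J t A) (D.J2 t A + (2 : ℝ) • D.J1 t B) =
        inner ℝ (D.J2 t A) (D.J t A) - 4 * β := by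
      rw [inner_add_right, inner_smul_right, ← D.symm t htT A B, h1AB, real_inner_comm]; ring
    have e3 : inner ℝ (D.J1 t A + D.J t B) (D.J1 t A + D.J t B) = ‖D.J1 t A‖ ^ 2 := by
      rw [inner_add_left, inner_add_right, inner_add_right, real_inner_self_eq_norm_sq,
        real_inner_self_eq_norm_sq, real_inner_comm (D.J1 t A) (D.J t B), h1AB, hJB]; ring
    rw [e1, e2, e3]
    rw [div_le_iff₀ (by positivity)]
    have e4 : lam * n ^ 2 * (lam * n ^ 2 / n) = lam ^ 2 * n ^ 3 := by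
      field_simp
    rw [e4]
    nlinarith [hcurv, hβ0, hn0, mul_nonneg hβ0 hn0.le, mul_le_mul_of_nonneg_right hcurv hn0.le]

end

end

end Pool.Agent.Helper54.SO
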