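import Pool.Agent.Helper54.SO.JF

/-! Project SO: piece C, scalar comparison. -/

namespace Pool.Agent.Helper54.SO

open Filter Topology Set

noncomputable section

theorem no_min {f f' : ℝ → ℝ} {f'' s : ℝ} (hmin : ∀ᶠ t in 𝓝 s, f s ≤ f t)
    (h1 : ∀ᶠ t in 𝓝 s, HasDerivAt f (f' t) t) (h2 : HasDerivAt f' f'' s) (hneg : f'' < 0) : False := by
  have hd : f' s = 0 := IsLocalMin.hasDerivAt_eq_zero hmin h1.self_of_nhds
  have hderiv : deriv f =ᶠ[𝓝 s] f' := h1.mono fun t ht => ht.deriv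
  have hdd : deriv (deriv f) s = f'' := by rw [hderiv.deriv_eq]; exact h2.deriv
  have hnd : deriv (-f) =ᶠ[𝓝 s] -(deriv f) := by
    filter_upwards with t
    simp [deriv.neg']
  have hmax : IsLocalMin (-f) s := by
    apply isLocalMin_of_deriv_deriv_pos
    · rw [hnd.deriv_eq]
      have : deriv (-(deriv f)) s = -f'' := by
        rw [show (-(deriv f)) = fun t => -(deriv f t) from rfl, deriv.fun_neg, hdd]
      rw [this]; linarith
    · rw [hnd.self_of_nhds]
      simp [hderiv.self_of_nhds, hd]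
    · exact (h1.self_of_nhds.continuousAt).neg
  have hconst : f =ᶠ[𝓝 s] fun _ => f s := by
    filter_upwards [hmin, hmax] with t h1 h2
    simp at h2
    linarith
  have h0 : deriv f =ᶠ[𝓝 s] fun _ => 0 := by
    have := hconst.deriv
    filter_upwards [this] with t ht
    simpa using ht
  have : f'' = 0 := by
    rw [← hdd, h0.deriv_eq]; simp
  linarith

theorem comp_strict {k T : ℝ} (hk : 0 < k) (y : ℝ → ℝ)
    (hlsc : ∀ t ∈ Ico 0 T, LowerSemicontinuousWithinAt y (Ico 0 T) t)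
    (hb : ∀ t ∈ Ioo 0 T, Barrier k y t) (j : ℝ → ℝ) (b b' : ℝ) (hj : HasDerivAt j b 0)
    (hj0 : j 0 = y 0) (hyj : ∀ t ∈ Ioo 0 T, y t ≤ j t) (hbb : b < b') (t₁ : ℝ) (ht₁ : t₁ ∈ Ioo 0 T) :
    y t₁ < y 0 * Real.cosh (k * t₁) + b' / k * Real.sinh (k * t₁) := by
  by_contra hcon
  push Not at hcon
  set u : ℝ → ℝ := fun t => y 0 * Real.cosh (k * t) + b' / k * Real.sinh (k * t) with hu
  set u' : ℝ → ℝ := fun t => y 0 * (Real.sinh (k * t) * k) + b' / k * (Real.cosh (k * t) * k) with hu'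
  have hmul : ∀ t, HasDerivAt (fun t => k * t) k t := fun t => by
    simpa using (hasDerivAt_id t).const_mul k
  have hud : ∀ t, HasDerivAt u (u' t) t := fun t =>
    (((Real.hasDerivAt_cosh (k * t)).comp t (hmul t)).const_mul _).add
      (((Real.hasDerivAt_sinh (k * t)).comp t (hmul t)).const_mul _)
  have hudd : ∀ t, HasDerivAt u' (k ^ 2 * u t) t := fun t => by
    have := ((((Real.hasDerivAt_sinh (k * t)).comp t (hmul t)).mul_const k).const_mul (y 0)).add
      ((((Real.hasDerivAt_cosh (k * t)).comp t (hmul t)).mul_const k).const_mul (b' / k))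
    have h2 : k ^ 2 * u t = y 0 * (Real.cosh (k * t) * k * k) + b' / k * (Real.sinh (k * t) * k * k) := by
      simp only [hu]; ring
    rw [h2]; exact this
  have hucont : Continuous u := continuous_iff_continuousAt.2 fun t => (hud t).continuousAt
  have hu0 : u 0 = y 0 := by simp [hu]
  have hu'0 : u' 0 = b' := by simp [hu']; field_simp
  -- near zero
  have hnear : ∀ᶠ t in 𝓝[>] (0:ℝ), j t < u t := by
    have hd : HasDerivAt (fun t => u t - j t) (b' - b) 0 := by
      have := (hud 0).sub hj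
      rwa [hu'0] at this
    have hslope := hd.tendsto_slope
    have hpos : ∀ᶠ t in 𝓝[≠] (0:ℝ), 0 < slope (fun t => u t - j t) 0 t :=
      hslope.eventually (lt_mem_nhds (by linarith))
    have hpos' : ∀ᶠ t in 𝓝[>] (0:ℝ), 0 < slope (fun t => u t - j t) 0 t :=
      hpos.filter_mono (nhdsWithin_mono _ fun x (hx : 0 < x) => hx.ne')
    filter_upwards [hpos', self_mem_nhdsWithin] with t ht ht0
    have ht0' : (0:ℝ) < t := ht0
    rw [slope_def_field] at ht
    have h3 : u 0 - j 0 = 0 := by rw [hu0, hj0]; ring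
    rw [h3] at ht
    have h4 : 0 < (u t - j t) / t := by simpa using ht
    have := (div_pos_iff_of_pos_right ht0').1 h4
    linarith
  -- lower semicontinuity of φ
  set φ : ℝ → ℝ := fun t => y t + -(u t) with hφ
  have hφlsc : LowerSemicontinuousOn φ (Icc 0 t₁) := by
    have h1 : LowerSemicontinuousOn y (Icc 0 t₁) := fun t ht =>
      (hlsc t ⟨ht.1, ht.2.trans_lt ht₁.2⟩).mono fun s hs => ⟨hs.1, hs.2.trans_lt ht₁.2⟩
    exact h1.add (hucont.neg.lowerSemicontinuous.lowerSemicontinuousOn _)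
  obtain ⟨s, hs, hsmin⟩ := hφlsc.exists_isMinOn (nonempty_Icc.2 ht₁.1.le) isCompact_Icc
  -- a point where φ is negative
  obtain ⟨r, hr, hrφ⟩ : ∃ r ∈ Ioo 0 t₁, φ r < 0 := by
    have h1 : ∀ᶠ t in 𝓝[>] (0:ℝ), t ∈ Ioo 0 t₁ := Ioo_mem_nhdsGT ht₁.1
    obtain ⟨r, hr1, hr2⟩ := (hnear.and h1).exists
    refine ⟨r, hr2, ?_⟩
    have := hyj r ⟨hr2.1, hr2.2.trans ht₁.2⟩
    simp only [hφ]; linarith
  have hsneg : φ s < 0 := lt_of_le_of_lt (hsmin (show r ∈ Icc 0 t₁ from ⟨hr.1.le, hr.2.le⟩)) hrφ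
  have hs0 : s ≠ 0 := by
    rintro rfl
    have : φ 0 = 0 := by simp only [hφ]; rw [hu0]; ring
    linarith
  have hst : s ≠ t₁ := by
    rintro rfl
    simp only [hφ] at hsneg
    linarith
  have hsI : s ∈ Ioo 0 t₁ := ⟨lt_of_le_of_ne hs.1 (Ne.symm hs0), lt_of_le_of_ne hs.2 hst⟩
  obtain ⟨z, z', z'', hz1, hz2, hz3, hz4, hz5⟩ := hb s ⟨hsI.1, hsI.2.trans ht₁.2⟩
  refine no_min (f := fun t => z t - u t) (f' := fun t => z' t - u' t) (f'' := z'' - k ^ 2 * u s)
    (s := s) ?_ ?_ ?_ ?_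
  · filter_upwards [hz1, Ioo_mem_nhds hsI.1 hsI.2] with t ht htI
    have h1 : φ s ≤ φ t := hsmin (show t ∈ Icc 0 t₁ from ⟨htI.1.le, htI.2.le⟩)
    simp only [hφ] at h1
    rw [hz2]
    linarith
  · filter_upwards [hz3] with t ht
    exact ht.sub (hud t)
  · exact hz4.sub (hudd s)
  · have : k ^ 2 * (y s - u s) < 0 := by
      apply mul_neg_of_pos_of_neg (by positivity)
      simp only [hφ] at hsneg; linarith
    nlinarith

theorem stmtC : StmtC := by
  intro k T hk hT y hlsc hb j b hj hj0 hyj t ht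
  rcases eq_or_lt_of_le ht.1 with h0 | h0
  · rw [← h0]; simp
  · have hlim : Tendsto (fun b' : ℝ => y 0 * Real.cosh (k * t) + b' / k * Real.sinh (k * t))
        (𝓝[>] b) (𝓝 (y 0 * Real.cosh (k * t) + b / k * Real.sinh (k * t))) := by
      apply Tendsto.mono_left _ nhdsWithin_le_nhds
      apply Continuous.tendsto
      fun_prop
    refine ge_of_tendsto hlim ?_
    filter_upwards [self_mem_nhdsWithin] with b' hb'
    exact (comp_strict hk y hlsc hb j b b' hj hj0 hyj hb' t ⟨h0, ht.2⟩).le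

end

end Pool.Agent.Helper54.SO
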