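import Mathlib

/-! Project SO (MP_2d033b_gt): small singular orbits of cohomogeneity one manifolds.
Definitions used in the statement. -/

namespace Pool.Agent.Helper54.SO

open Filter Topology Set
open scoped ContDiff

noncomputable section

section

variable {E : Type*} [NormedAddCommGroup E] [InnerProductSpace ℝ E]

/-- The tangent space at `x` of a subset `M` of `E`: the span of the velocities at `x` of the smooth
curves in `M` through `x`. -/
def tang (M : Set E) (x : E) : Submodule ℝ E :=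
  Submodule.span ℝ {v | ∃ c : ℝ → E, ContDiffAt ℝ ∞ c 0 ∧ c 0 = x ∧ (∀ᶠ t in 𝓝 0, c t ∈ M) ∧
    deriv c 0 = v}

/-- The component of `v` normal to `M` at `x`. -/
def nor [FiniteDimensional ℝ E] (M : Set E) (x v : E) : E := v - (tang M x).starProjection v

/-- `M` has sectional curvature at least `κ` (Gauss equation): for every smooth map `f` from a
neighbourhood of the origin of the plane to `M`, with partial derivatives `f_s, f_t` and
`II(f_s,f_s) = nor f_ss`, `II(f_s,f_t) = nor f_st`, `II(f_t,f_t) = nor f_tt` at the origin. -/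
def SecGe [FiniteDimensional ℝ E] (M : Set E) (κ : ℝ) : Prop :=
  ∀ f : ℝ → ℝ → E, ContDiffAt ℝ ∞ (fun z : ℝ × ℝ => f z.1 z.2) (0, 0) →
    (∀ᶠ z : ℝ × ℝ in 𝓝 (0, 0), f z.1 z.2 ∈ M) →
    κ * (‖deriv (fun s => f s 0) 0‖ ^ 2 * ‖deriv (fun t => f 0 t) 0‖ ^ 2 -
        inner ℝ (deriv (fun s => f s 0) 0) (deriv (fun t => f 0 t) 0) ^ 2) ≤
      inner ℝ (nor M (f 0 0) (deriv (deriv fun s => f s 0) 0))
        (nor M (f 0 0) (deriv (deriv fun t => f 0 t) 0)) -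
      ‖nor M (f 0 0) (deriv (fun s => deriv (fun t => f s t) 0) 0)‖ ^ 2

/-- `x` can be joined to `y` in `S` by a path of length at most `a` (a 1-Lipschitz path on
`[0, a]`). -/
def JoinLe (S : Set E) (a : ℝ) (x y : E) : Prop :=
  0 ≤ a ∧ ∃ c : ℝ → E, LipschitzOnWith 1 c (Icc 0 a) ∧ (∀ s ∈ Icc 0 a, c s ∈ S) ∧ c 0 = x ∧ c a = y

/-- evaluation at `x`, as a linear map on a space of operators -/
def ev (g : Submodule ℝ (E →L[ℝ] E)) (x : E) : g →L[ℝ] E :=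
  (ContinuousLinearMap.apply ℝ E x).comp g.subtypeL

end

/-- A part `M`, invariant under the group `Γ`, of a Riemannian manifold with an action of
cohomogeneity one, around an end of the orbit space, inside a Euclidean space. -/
structure End (E : Type*) [NormedAddCommGroup E] [InnerProductSpace ℝ E] [FiniteDimensional ℝ E]
    (Γ : Type*) [Group Γ] (k T : ℝ) where
  /-- the submanifold -/
  M : Set E
  /-- the action by isometries -/
  ρ : Γ →* (E ≃ₗᵢ[ℝ] E)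
  /-- the Lie algebra -/
  𝔤 : Submodule ℝ (E →L[ℝ] E)
  skew : ∀ A ∈ 𝔤, ∀ x y, inner ℝ (A x) y = -inner ℝ x (A y)
  br : ∀ A ∈ 𝔤, ∀ B ∈ 𝔤, A.comp B - B.comp A ∈ 𝔤
  exp : ∀ A ∈ 𝔤, ∃ g : Γ, ∀ x, ρ g x = NormedSpace.exp A x
  ad : ∀ g : Γ, ∀ A ∈ 𝔤, ∃ B ∈ 𝔤, ∀ x, B x = ρ g⁻¹ (A (ρ g x))
  inv : ∀ g : Γ, ∀ x ∈ M, ρ g x ∈ M
  sec : SecGe M (-k ^ 2)
  /-- the normal geodesic -/
  γ : ℝ → E
  smooth : ContDiffOn ℝ ∞ γ (Ioo (-T) T)
  mem : ∀ t ∈ Ioo (-T) T, γ t ∈ M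
  unit : ∀ t ∈ Ioo (-T) T, ‖deriv γ t‖ = 1
  orth : ∀ t ∈ Ioo (-T) T, ∀ A ∈ 𝔤, inner ℝ (deriv γ t) (A (γ t)) = 0
  tan : ∀ t ∈ Ioo (-T) T, t ≠ 0 →
    tang M (γ t) = Submodule.span ℝ {deriv γ t} ⊔ LinearMap.range (ev 𝔤 (γ t)).toLinearMap
  iso : ∀ A ∈ 𝔤, ∀ t ∈ Ioo (-T) T, A (γ t) = 0 → (t ≠ 0 ∨ A (deriv γ t) = 0) →
    ∀ s ∈ Ioo (-T) T, A (γ s) = 0
  refl : ∃ g : Γ, ∀ t ∈ Ioo (-T) T, ρ g (γ t) = γ (-t)

variable {E : Type*} [NormedAddCommGroup E] [InnerProductSpace ℝ E] [FiniteDimensional ℝ E]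
  {Γ : Type*} [Group Γ] {k T : ℝ}

/-- `D.Broken g a`: `g` is a product of exponentials `exp A₁ ⋯ exp A_n` of elements of the Lie
algebra and `a = Σ ‖A_i p‖`, `p = γ 0`, is the length of the broken path of one parameter arcs from
`p` to `g p` in the orbit of `p`. -/
inductive End.Broken (D : End E Γ k T) : Γ → ℝ → Prop
  | one : D.Broken 1 0
  | step (g h : Γ) (a : ℝ) (A : E →L[ℝ] E) : A ∈ D.𝔤 → (∀ x, D.ρ h x = NormedSpace.exp A x) →
      D.Broken g a → D.Broken (g * h) (a + ‖A (D.γ 0)‖)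

/-- The dimension of the orbit of `p = γ 0`. -/
def End.dim (D : End E Γ k T) : ℕ := Module.finrank ℝ (LinearMap.range (ev D.𝔤 (D.γ 0)).toLinearMap)

end

end Pool.Agent.Helper54.SO
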