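import Mathlib

/-! Project SO (MP_2d033b_gt): abstract Jacobi families and the statements of the pieces. -/

namespace Pool.Agent.Helper54.SO

open Filter Topology Set

noncomputable section

/-- Abstract family of Killing fields along a normal geodesic: `J t A` is the value at `γ t` of the
Killing field of `A`, `J1`, `J2` its (extrinsic) derivatives. -/
structure JF (V E : Type*) [NormedAddCommGroup V] [NormedSpace ℝ V] [FiniteDimensional ℝ V]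
    [NormedAddCommGroup E] [InnerProductSpace ℝ E] [FiniteDimensional ℝ E] (k T : ℝ) where
  J : ℝ → V →L[ℝ] E
  J1 : ℝ → V →L[ℝ] E
  J2 : ℝ → V →L[ℝ] E
  d0 : ∀ t ∈ Ioo (-T) T, HasDerivAt J (J1 t) t
  d1 : ∀ t ∈ Ioo (-T) T, HasDerivAt J1 (J2 t) t
  symm : ∀ t ∈ Ioo (-T) T, ∀ A B, inner ℝ (J1 t A) (J t B) = inner ℝ (J t A) (J1 t B)
  curv : ∀ t ∈ Ioo 0 T, ∀ A, inner ℝ (J2 t A) (J t A) + ‖J1 t A‖ ^ 2 ≤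
    ‖(LinearMap.range (J t).toLinearMap).starProjection (J1 t A)‖ ^ 2 + k ^ 2 * ‖J t A‖ ^ 2
  ker : ∀ t ∈ Ioo 0 T, ∀ A, J t A = 0 → ∀ s ∈ Ioo (-T) T, J s A = 0
  ker0 : ∀ A, J 0 A = 0 → J1 0 A = 0 → ∀ s ∈ Ioo (-T) T, J s A = 0
  sym0 : ∃ φ : V → V, (∀ A B, inner ℝ (J 0 (φ A)) (J 0 (φ B)) = inner ℝ (J 0 A) (J 0 B)) ∧
    ∀ A B, inner ℝ (J1 0 (φ A)) (J 0 (φ B)) = -inner ℝ (J1 0 A) (J 0 B)

/-- Barrier: near `t` the function `y` is below a function `z`, twice differentiable at `t`, equal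
at `t`, with second derivative at most `k² y`. -/
def Barrier (k : ℝ) (y : ℝ → ℝ) (t : ℝ) : Prop :=
  ∃ (z z' : ℝ → ℝ) (z'' : ℝ), (∀ᶠ s in 𝓝 t, y s ≤ z s) ∧ z t = y t ∧
    (∀ᶠ s in 𝓝 t, HasDerivAt z (z' s) s) ∧ HasDerivAt z' z'' t ∧ z'' ≤ k ^ 2 * y t

/-- Piece C: scalar comparison. -/
def StmtC : Prop := ∀ (k T : ℝ), 0 < k → 0 < T → ∀ y : ℝ → ℝ,
  (∀ t ∈ Ico 0 T, LowerSemicontinuousWithinAt y (Ico 0 T) t) →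
  (∀ t ∈ Ioo 0 T, Barrier k y t) →
  ∀ (j : ℝ → ℝ) (b : ℝ), HasDerivAt j b 0 → j 0 = y 0 → (∀ t ∈ Ioo 0 T, y t ≤ j t) →
  ∀ t ∈ Ico 0 T, y t ≤ y 0 * Real.cosh (k * t) + b / k * Real.sinh (k * t)

section
variable {V E : Type*} [NormedAddCommGroup V] [NormedSpace ℝ V] [FiniteDimensional ℝ V]
    [NormedAddCommGroup E] [InnerProductSpace ℝ E] [FiniteDimensional ℝ E] {k T : ℝ}

/-- Piece B: the barrier for `y(t) = min {‖J t A‖ : ξ A = 1}`. -/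
def JF.StmtB (D : JF V E k T) : Prop := ∀ (ξ : V →ₗ[ℝ] ℝ) (t : ℝ), t ∈ Ioo 0 T → ∀ A : V, ξ A = 1 →
  (∀ B, ξ B = 0 → inner ℝ (D.J t A) (D.J t B) = 0) → D.J t A ≠ 0 →
  ∃ (z z' : ℝ → ℝ) (z'' : ℝ), (∀ s, ∃ B, ξ B = 1 ∧ z s = ‖D.J s B‖) ∧ z t = ‖D.J t A‖ ∧
    (∀ᶠ s in 𝓝 t, HasDerivAt z (z' s) s) ∧ HasDerivAt z' z'' t ∧ z'' ≤ k ^ 2 * ‖D.J t A‖

/-- Piece S: lower semicontinuity. -/
def JF.StmtS (D : JF V E k T) : Prop := ∀ ξ : V →ₗ[ℝ] ℝ, (∀ A, D.J 0 A = 0 → ξ A = 0) →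
  ∀ t ∈ Ico 0 T, ∀ δ : ℝ, 0 < δ → δ < 1 → ∀ᶠ s in 𝓝[Ico 0 T] t, ∀ A, ∃ B, ξ B = ξ A ∧
    (1 - δ) * ‖D.J t B‖ ≤ ‖D.J s A‖

/-- Piece T: trace argument. -/
def JF.StmtT (D : JF V E k T) : Prop := ∀ c : ℝ, 0 ≤ c →
  (∀ A, -c * ‖D.J 0 A‖ ^ 2 ≤ inner ℝ (D.J1 0 A) (D.J 0 A)) →
  ∀ A, inner ℝ (D.J1 0 A) (D.J 0 A) ≤
    ((Module.finrank ℝ (LinearMap.range (D.J 0).toLinearMap) : ℝ) - 1) * c * ‖D.J 0 A‖ ^ 2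

/-- Piece M: main inequality (from C, B, S, T). -/
def JF.StmtM (D : JF V E k T) : Prop := ∀ t ∈ Ioo 0 T, ∃ P : V →ₗ[ℝ] V, (∀ A, D.J 0 (P A) = 0) ∧
  ∀ A, ‖D.J t (A - P A)‖ ≤
    (Module.finrank ℝ (LinearMap.range (D.J 0).toLinearMap) : ℝ) * Real.cosh (k * T) * ‖D.J 0 A‖
end

end

end Pool.Agent.Helper54.SO
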