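import Pool.Agent.Helper54.SO.Defs
import Pool.Agent.Helper54.SO.JF

/-! Project SO: piece G, from the geometric structure to the abstract Jacobi family. -/

namespace Pool.Agent.Helper54.SO

open Filter Topology Set
open scoped ContDiff

noncomputable section

variable {E : Type*} [NormedAddCommGroup E] [InnerProductSpace ℝ E]

@[simp] theorem ev_apply (g : Submodule ℝ (E →L[ℝ] E)) (x : E) (A : g) :
    ev g x A = (A : E →L[ℝ] E) x := rfl

variable [FiniteDimensional ℝ E]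

section
variable {V : Type*} [NormedAddCommGroup V] [NormedSpace ℝ V]

/-- evaluation, linear in the point -/
def evLin (g : V →L[ℝ] E →L[ℝ] E) : E →ₗ[ℝ] (V →L[ℝ] E) where
  toFun x := (ContinuousLinearMap.apply ℝ E x).comp g
  map_add' x y := by ext A; simp
  map_smul' a x := by ext A; simp

theorem hasDerivAt_ev' (g : V →L[ℝ] E →L[ℝ] E) {c : ℝ → E} {v : E} {t : ℝ}
    (h : HasDerivAt c v t) : HasDerivAt (fun t => (ContinuousLinearMap.apply ℝ E (c t)).comp g)
      ((ContinuousLinearMap.apply ℝ E v).comp g) t :=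
  (LinearMap.toContinuousLinearMap (evLin g)).hasFDerivAt.comp_hasDerivAt t h

end

theorem hasDerivAt_ev (g : Submodule ℝ (E →L[ℝ] E)) {c : ℝ → E} {v : E} {t : ℝ}
    (h : HasDerivAt c v t) : HasDerivAt (fun t => ev g (c t)) (ev g v) t := by
  have := @hasDerivAt_ev' E _ _ _ g _ inferInstance g.subtypeL c v t h
  exact this

/-- derivative of `s ↦ exp (s A) x` -/
theorem hasDerivAt_exp_apply (A : E →L[ℝ] E) (x : E) (s : ℝ) :
    HasDerivAt (fun s : ℝ => NormedSpace.exp (s • A) x) (NormedSpace.exp (s • A) (A x)) s := by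
  have : CompleteSpace E := FiniteDimensional.complete ℝ E
  have h := hasDerivAt_exp_smul_const (𝕂 := ℝ) A s
  have h2 := h.clm_apply (hasDerivAt_const s x)
  simpa using h2

theorem contDiff_exp_apply (A : E →L[ℝ] E) : ContDiff ℝ ∞ fun s : ℝ => NormedSpace.exp (s • A) := by
  have : CompleteSpace E := FiniteDimensional.complete ℝ E
  rw [contDiff_iff_contDiffAt]
  intro s
  have h1 : ContDiffAt ℝ ∞ (NormedSpace.exp : (E →L[ℝ] E) → (E →L[ℝ] E)) (s • A) :=
    (NormedSpace.exp_analytic (𝕂 := ℝ) (s • A)).contDiffAt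
  have h2 : ContDiffAt ℝ ∞ (fun s : ℝ => s • A) s := by fun_prop
  exact h1.comp s h2

variable {Γ : Type*} [Group Γ] {k T : ℝ}

namespace End

variable (D : End E Γ k T)

theorem hasDerivAt_γ {t : ℝ} (ht : t ∈ Ioo (-T) T) : HasDerivAt D.γ (deriv D.γ t) t :=
  ((D.smooth.contDiffAt (Ioo_mem_nhds ht.1 ht.2)).differentiableAt (by simp)).hasDerivAt

theorem smooth' : ContDiffOn ℝ ∞ (deriv D.γ) (Ioo (-T) T) :=
  D.smooth.deriv_of_isOpen isOpen_Ioo (by simp)

theorem hasDerivAt_γ' {t : ℝ} (ht : t ∈ Ioo (-T) T) :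
    HasDerivAt (deriv D.γ) (deriv (deriv D.γ) t) t :=
  ((D.smooth'.contDiffAt (Ioo_mem_nhds ht.1 ht.2)).differentiableAt (by simp)).hasDerivAt

theorem inner_self_eq_zero' {A : E →L[ℝ] E} (hA : A ∈ D.𝔤) (x : E) : inner ℝ x (A x) = 0 := by
  have h := D.skew A hA x x
  rw [real_inner_comm] at h
  linarith

/-- `γ''` is orthogonal to `γ'`. -/
theorem orth2 {t : ℝ} (ht : t ∈ Ioo (-T) T) : inner ℝ (deriv D.γ t) (deriv (deriv D.γ) t) = 0 := by
  have h1 := (D.hasDerivAt_γ' ht).inner ℝ (D.hasDerivAt_γ' ht)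
  have h2 : (fun t => inner ℝ (deriv D.γ t) (deriv D.γ t)) =ᶠ[𝓝 t] fun _ => (1:ℝ) := by
    filter_upwards [Ioo_mem_nhds ht.1 ht.2] with s hs
    rw [real_inner_self_eq_norm_sq, D.unit s hs, one_pow]
  have h3 := (h2.hasDerivAt_iff.1 h1).unique (hasDerivAt_const t (1:ℝ))
  rw [real_inner_comm (deriv D.γ t) (deriv (deriv D.γ) t)] at h3
  linarith

/-- `γ''` is orthogonal to the orbit. -/
theorem orth3 {t : ℝ} (ht : t ∈ Ioo (-T) T) {A : E →L[ℝ] E} (hA : A ∈ D.𝔤) :
    inner ℝ (deriv (deriv D.γ) t) (A (D.γ t)) = 0 := by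
  have hAd : HasDerivAt (fun t => A (D.γ t)) (A (deriv D.γ t)) t :=
    A.hasFDerivAt.comp_hasDerivAt t (D.hasDerivAt_γ ht)
  have h1 := (D.hasDerivAt_γ' ht).inner ℝ hAd
  have h2 : (fun t => inner ℝ (deriv D.γ t) (A (D.γ t))) =ᶠ[𝓝 t] fun _ => (0:ℝ) := by
    filter_upwards [Ioo_mem_nhds ht.1 ht.2] with s hs
    exact D.orth s hs A hA
  have h3 := (h2.hasDerivAt_iff.1 h1).unique (hasDerivAt_const t (0:ℝ))
  rw [D.inner_self_eq_zero' hA, zero_add] at h3
  exact h3

theorem curv {t : ℝ} (ht : t ∈ Ioo 0 T) (A : D.𝔤) :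
    inner ℝ (ev D.𝔤 (deriv (deriv D.γ) t) A) (ev D.𝔤 (D.γ t) A) + ‖ev D.𝔤 (deriv D.γ t) A‖ ^ 2 ≤
      ‖(LinearMap.range (ev D.𝔤 (D.γ t)).toLinearMap).starProjection (ev D.𝔤 (deriv D.γ t) A)‖ ^ 2 +
        k ^ 2 * ‖ev D.𝔤 (D.γ t) A‖ ^ 2 := by
  have htT : t ∈ Ioo (-T) T := ⟨by linarith [ht.1, ht.2], ht.2⟩
  obtain ⟨A, hA⟩ := A
  simp only [ev_apply]
  set p := D.γ t with hp
  set v := deriv D.γ t with hv
  set w := deriv (deriv D.γ) t with hw
  set R := LinearMap.range (ev D.𝔤 p).toLinearMap with hR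
  -- the surface
  set f : ℝ → ℝ → E := fun s r => NormedSpace.exp (s • A) (D.γ (t + r)) with hf
  have hf0 : ∀ r, f 0 r = D.γ (t + r) := by
    intro r; simp [hf, NormedSpace.exp_zero]
  have hfp : f 0 0 = p := by rw [hf0, add_zero]
  have hsm : ContDiffAt ℝ ∞ (fun z : ℝ × ℝ => f z.1 z.2) (0, 0) := by
    have h1 : ContDiffAt ℝ ∞ (fun z : ℝ × ℝ => NormedSpace.exp (z.1 • A)) (0, 0) :=
      (contDiff_exp_apply A).contDiffAt.comp (0, 0) contDiffAt_fst
    have h2 : ContDiffAt ℝ ∞ (fun z : ℝ × ℝ => D.γ (t + z.2)) (0, 0) := by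
      have h3 : ContDiffAt ℝ ∞ D.γ ((fun z : ℝ × ℝ => t + z.2) (0, 0)) := by
        simp only [add_zero]
        exact D.smooth.contDiffAt (Ioo_mem_nhds htT.1 htT.2)
      exact h3.comp (0, 0) (contDiffAt_const.add contDiffAt_snd)
    exact h1.clm_apply h2
  have hmem : ∀ᶠ z : ℝ × ℝ in 𝓝 (0, 0), f z.1 z.2 ∈ D.M := by
    have h1 : Tendsto (fun z : ℝ × ℝ => t + z.2) (𝓝 (0, 0)) (𝓝 t) := by
      have : Continuous (fun z : ℝ × ℝ => t + z.2) := by fun_prop
      simpa using this.tendsto (0, 0)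
    filter_upwards [h1.eventually (Ioo_mem_nhds htT.1 htT.2)] with z hz
    obtain ⟨g, hg⟩ := D.exp (z.1 • A) (D.𝔤.smul_mem _ hA)
    rw [hf]
    simp only
    rw [← hg]
    exact D.inv g _ (D.mem _ hz)
  have hsec := D.sec f hsm hmem
  -- the derivatives
  have e1 : deriv (fun s => f s 0) = fun s => NormedSpace.exp (s • A) (A p) := by
    funext s
    have h1 : (fun s => f s 0) = fun s : ℝ => NormedSpace.exp (s • A) p := by
      funext s; simp [hf, hp]
    rw [h1]
    exact (hasDerivAt_exp_apply A p s).deriv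
  have e2 : deriv (deriv fun s => f s 0) 0 = A (A p) := by
    rw [e1, (hasDerivAt_exp_apply A (A p) 0).deriv]
    simp [NormedSpace.exp_zero]
  have e1' : deriv (fun s => f s 0) 0 = A p := by
    rw [e1]; simp [NormedSpace.exp_zero]
  have e3 : (fun r => f 0 r) = fun r => D.γ (t + r) := by
    funext r; exact hf0 r
  have e4 : deriv (fun r => f 0 r) = fun r => deriv D.γ (t + r) := by
    rw [e3]; funext r; rw [deriv_comp_const_add]
  have e4' : deriv (fun r => f 0 r) 0 = v := by rw [e4]; simp [hv]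
  have e5 : deriv (deriv fun r => f 0 r) 0 = w := by
    rw [e4, deriv_comp_const_add, add_zero]
  have e6 : (fun s => deriv (fun r => f s r) 0) = fun s : ℝ => NormedSpace.exp (s • A) v := by
    funext s
    have h1 : HasDerivAt (fun r => D.γ (t + r)) v 0 := by
      have h2 : HasDerivAt D.γ v (t + 0) := by rw [add_zero]; exact D.hasDerivAt_γ htT
      exact HasDerivAt.comp_const_add t 0 h2
    exact ((NormedSpace.exp (s • A)).hasFDerivAt.comp_hasDerivAt 0 h1).deriv
  have e7 : deriv (fun s => deriv (fun r => f s r) 0) 0 = A v := by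
    rw [e6, (hasDerivAt_exp_apply A v 0).deriv]
    simp [NormedSpace.exp_zero]
  rw [e1', e2, e4', e5, e7, hfp] at hsec
  -- the tangent space
  have hvv : inner ℝ v v = (1:ℝ) := by
    rw [real_inner_self_eq_norm_sq, hv, D.unit t htT, one_pow]
  have hvR : ∀ y ∈ R, inner ℝ v y = 0 := by
    rintro y ⟨B, rfl⟩
    exact D.orth t htT B.1 B.2
  have htan : tang D.M p = Submodule.span ℝ {v} ⊔ R := D.tan t htT ht.1.ne'
  have hApR : A p ∈ R := ⟨⟨A, hA⟩, rfl⟩
  have hAp0 : inner ℝ (A p) v = 0 := by rw [real_inner_comm]; exact hvR _ hApR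
  have hvn : ‖v‖ = 1 := D.unit t htT
  -- nor w = w
  have hworth : ∀ y ∈ tang D.M p, inner ℝ w y = 0 := by
    intro y hy
    rw [htan] at hy
    obtain ⟨y1, hy1, y2, hy2, rfl⟩ := Submodule.mem_sup.1 hy
    obtain ⟨a, rfl⟩ := Submodule.mem_span_singleton.1 hy1
    obtain ⟨B, rfl⟩ := hy2
    rw [inner_add_right, inner_smul_right, real_inner_comm, D.orth2 htT, mul_zero, zero_add]
    exact D.orth3 htT B.2
  have hnorw : nor D.M p w = w := by
    have : (tang D.M p).starProjection w = 0 :=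
      Submodule.eq_starProjection_of_mem_of_inner_eq_zero (Submodule.zero_mem _)
        (fun y hy => by rw [sub_zero]; exact hworth y hy)
    rw [nor, this, sub_zero]
  have hin : inner ℝ (nor D.M p (A (A p))) w = -inner ℝ (A w) (A p) := by
    have h1 : (tang D.M p).starProjection (A (A p)) ∈ tang D.M p := Submodule.starProjection_apply_mem _ _
    rw [nor, inner_sub_left, real_inner_comm w ((tang D.M p).starProjection (A (A p))),
      hworth _ h1, sub_zero, D.skew A hA, real_inner_comm]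
  -- projection of A v
  have hvAv : inner ℝ v (A v) = 0 := D.inner_self_eq_zero' hA v
  set q := R.starProjection (A v) with hq
  have hqR : q ∈ R := Submodule.starProjection_apply_mem _ _
  have hqo : A v - q ∈ Rᗮ := Submodule.sub_starProjection_mem_orthogonal _
  have hprojAv : (tang D.M p).starProjection (A v) = q := by
    apply Submodule.eq_starProjection_of_mem_of_inner_eq_zero
    · rw [htan]; exact Submodule.mem_sup_right hqR
    · intro y hy
      rw [htan] at hy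
      obtain ⟨y1, hy1, y2, hy2, rfl⟩ := Submodule.mem_sup.1 hy
      obtain ⟨a, rfl⟩ := Submodule.mem_span_singleton.1 hy1
      rw [inner_add_right, inner_smul_right, (Submodule.mem_orthogonal' _ _).1 hqo _ hy2,
        inner_sub_left, real_inner_comm v (A v), hvAv, real_inner_comm v q, hvR _ hqR]
      ring
  have hnorAv : ‖nor D.M p (A v)‖ ^ 2 = ‖A v‖ ^ 2 - ‖q‖ ^ 2 := by
    rw [nor, hprojAv]
    have h1 : inner ℝ (A v - q) q = 0 := (Submodule.mem_orthogonal' _ _).1 hqo _ hqR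
    have h2 : A v = (A v - q) + q := by abel
    have h3 : ‖A v‖ ^ 2 = ‖A v - q‖ ^ 2 + 2 * inner ℝ (A v - q) q + ‖q‖ ^ 2 := by
      conv_lhs => rw [h2]
      exact norm_add_sq_real _ _
    rw [h1] at h3
    linarith
  rw [hnorw, hin, hnorAv, hAp0, hvn] at hsec
  linarith

/-- The abstract Jacobi family. -/
def toJF (hT : 0 < T) : JF D.𝔤 E k T where
  J t := ev D.𝔤 (D.γ t)
  J1 t := ev D.𝔤 (deriv D.γ t)
  J2 t := ev D.𝔤 (deriv (deriv D.γ) t)
  d0 t ht := hasDerivAt_ev _ (D.hasDerivAt_γ ht)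
  d1 t ht := hasDerivAt_ev _ (D.hasDerivAt_γ' ht)
  symm t ht A B := by
    have h1 := D.orth t ht _ (D.br A.1 A.2 B.1 B.2)
    simp only [sub_apply, ContinuousLinearMap.comp_apply, inner_sub_right] at h1
    simp only [ev_apply]
    rw [D.skew A.1 A.2, real_inner_comm (B.1 (deriv D.γ t)), D.skew B.1 B.2]
    linarith
  curv t ht A := D.curv ht A
  ker t ht A hA s hs := D.iso A.1 A.2 t ⟨by linarith [ht.1, ht.2], ht.2⟩ hA (Or.inl ht.1.ne') s hs
  ker0 A hA hA1 s hs := D.iso A.1 A.2 0 ⟨by linarith, hT⟩ hA (Or.inr hA1) s hs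
  sym0 := by
    have h0T : (0:ℝ) ∈ Ioo (-T) T := ⟨by linarith, hT⟩
    obtain ⟨g, hg⟩ := D.refl
    choose! φ hφ1 hφ2 using D.ad g
    have hg0 : D.ρ g (D.γ 0) = D.γ 0 := by have := hg 0 h0T; rwa [neg_zero] at this
    have hg1 : D.ρ g (deriv D.γ 0) = -deriv D.γ 0 := by
      have h1 : HasDerivAt (fun t => D.ρ g (D.γ t)) (D.ρ g (deriv D.γ 0)) 0 :=
        (D.ρ g).toContinuousLinearEquiv.toContinuousLinearMap.hasFDerivAt.comp_hasDerivAt 0
          (D.hasDerivAt_γ h0T)
      have h2 : HasDerivAt (fun t => D.γ (-t)) (-deriv D.γ 0) 0 := by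
        have h3 : HasDerivAt D.γ (deriv D.γ 0) (-0) := by rw [neg_zero]; exact D.hasDerivAt_γ h0T
        have h4 := HasDerivAt.scomp (0:ℝ) h3 (hasDerivAt_neg (0:ℝ))
        rw [neg_one_smul] at h4
        exact h4
      have h3 : (fun t => D.ρ g (D.γ t)) =ᶠ[𝓝 0] fun t => D.γ (-t) := by
        filter_upwards [Ioo_mem_nhds h0T.1 h0T.2] with s hs
        exact hg s hs
      exact (h3.hasDerivAt_iff.1 h1).unique h2
    refine ⟨fun A => ⟨φ A.1, hφ1 A.1 A.2⟩, fun A B => ?_, fun A B => ?_⟩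
    · simp only [ev_apply]
      rw [hφ2 A.1 A.2, hφ2 B.1 B.2, hg0, LinearIsometryEquiv.inner_map_map]
    · simp only [ev_apply]
      rw [hφ2 A.1 A.2, hφ2 B.1 B.2, hg0, hg1, LinearIsometryEquiv.inner_map_map, map_neg,
        inner_neg_left]

end End

end

end Pool.Agent.Helper54.SO
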