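import Pool.Agent.Helper54.SO.M

/-! Project SO: piece L1, the foot point map is Lipschitz (lower comparison). -/

namespace Pool.Agent.Helper54.SO

open Filter Topology Set

noncomputable section

theorem low_scalar {k T : ℝ} (hk : 0 < k) (y : ℝ → ℝ)
    (hlsc : ∀ t ∈ Ico 0 T, LowerSemicontinuousWithinAt y (Ico 0 T) t)
    (hb : ∀ t ∈ Ioo 0 T, Barrier k y t) (hy : ∀ t ∈ Ico 0 T, 0 ≤ y t) {T' : ℝ}
    (hT' : T' ∈ Ioo 0 T) (t₁ : ℝ) (ht₁ : t₁ ∈ Icc 0 T') :
    y 0 / Real.sinh (k * T') * Real.sinh (k * (T' - t₁)) ≤ y t₁ := by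
  by_contra hcon
  push Not at hcon
  set c : ℝ := y 0 / Real.sinh (k * T') with hc
  set u : ℝ → ℝ := fun t => c * Real.sinh (k * (T' - t)) with hu
  set u' : ℝ → ℝ := fun t => c * (Real.cosh (k * (T' - t)) * -k) with hu'
  have hmul : ∀ t, HasDerivAt (fun t => k * (T' - t)) (-k) t := fun t => by
    simpa using ((hasDerivAt_id t).const_sub T').const_mul k
  have hud : ∀ t, HasDerivAt u (u' t) t := fun t =>
    ((Real.hasDerivAt_sinh (k * (T' - t))).comp t (hmul t)).const_mul _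
  have hudd : ∀ t, HasDerivAt u' (k ^ 2 * u t) t := fun t => by
    have := (((Real.hasDerivAt_cosh (k * (T' - t))).comp t (hmul t)).mul_const (-k)).const_mul c
    have h2 : k ^ 2 * u t = c * (Real.sinh (k * (T' - t)) * -k * -k) := by
      simp only [hu]; ring
    rw [h2]; exact this
  have hucont : Continuous u := continuous_iff_continuousAt.2 fun t => (hud t).continuousAt
  have hs' : 0 < Real.sinh (k * T') := Real.sinh_pos_iff.2 (mul_pos hk hT'.1)
  have hu0 : u 0 = y 0 := by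
    simp only [hu, hc, sub_zero]; field_simp
  have huT : u T' = 0 := by simp [hu]
  set φ : ℝ → ℝ := fun t => y t + -(u t) with hφ
  have hφlsc : LowerSemicontinuousOn φ (Icc 0 T') := by
    have h1 : LowerSemicontinuousOn y (Icc 0 T') := fun t ht =>
      (hlsc t ⟨ht.1, ht.2.trans_lt hT'.2⟩).mono fun s hs => ⟨hs.1, hs.2.trans_lt hT'.2⟩
    exact h1.add (hucont.neg.lowerSemicontinuous.lowerSemicontinuousOn _)
  obtain ⟨s, hs, hsmin⟩ := hφlsc.exists_isMinOn (nonempty_Icc.2 hT'.1.le) isCompact_Icc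
  have hsneg : φ s < 0 := lt_of_le_of_lt (hsmin ht₁) (by simp only [hφ, hu]; linarith)
  have hs0 : s ≠ 0 := by
    rintro rfl
    have : φ 0 = 0 := by simp only [hφ]; rw [hu0]; ring
    linarith
  have hst : s ≠ T' := by
    rintro rfl
    have h1 := hy s ⟨hs.1, hT'.2⟩
    simp only [hφ] at hsneg
    linarith
  have hsI : s ∈ Ioo 0 T' := ⟨lt_of_le_of_ne hs.1 (Ne.symm hs0), lt_of_le_of_ne hs.2 hst⟩
  obtain ⟨z, z', z'', hz1, hz2, hz3, hz4, hz5⟩ := hb s ⟨hsI.1, hsI.2.trans hT'.2⟩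
  refine no_min (f := fun t => z t - u t) (f' := fun t => z' t - u' t) (f'' := z'' - k ^ 2 * u s)
    (s := s) ?_ ?_ ?_ ?_
  · filter_upwards [hz1, Ioo_mem_nhds hsI.1 hsI.2] with t ht htI
    have h1 : φ s ≤ φ t := hsmin (show t ∈ Icc 0 T' from ⟨htI.1.le, htI.2.le⟩)
    simp only [hφ] at h1
    rw [hz2]
    linarith
  · filter_upwards [hz3] with t ht
    exact ht.sub (hud t)
  · exact hz4.sub (hudd s)
  · have : k ^ 2 * (y s - u s) < 0 := by
      apply mul_neg_of_pos_of_neg (by positivity)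
      simp only [hφ] at hsneg; linarith
    nlinarith

section
variable {V E : Type*} [NormedAddCommGroup V] [NormedSpace ℝ V] [FiniteDimensional ℝ V]
    [NormedAddCommGroup E] [InnerProductSpace ℝ E] [FiniteDimensional ℝ E] {k T : ℝ}

/-- lower semicontinuity and barrier of the minimum -/
theorem JF.min_props (D : JF V E k T) (hT : 0 < T) (ξ : V →ₗ[ℝ] ℝ)
    (hξ : ∀ A, D.J 0 A = 0 → ξ A = 0) (M : ℝ → V) (hM1 : ∀ t, ξ (M t) = 1)
    (hM2 : ∀ t B, ξ B = 0 → inner ℝ (D.J t (M t)) (D.J t B) = 0) :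
    (∀ s ∈ Ico 0 T, LowerSemicontinuousWithinAt (fun s => ‖D.J s (M s)‖) (Ico 0 T) s) ∧
      ∀ s ∈ Ioo 0 T, Barrier k (fun s => ‖D.J s (M s)‖) s := by
  have h0T : (0:ℝ) ∈ Ioo (-T) T := ⟨by linarith, hT⟩
  set y : ℝ → ℝ := fun s => ‖D.J s (M s)‖ with hy
  have hyle : ∀ s B, ξ B = 1 → y s ≤ ‖D.J s B‖ := fun s B hB => D.min_le ξ (hM1 s) (hM2 s) hB
  have hne : ∀ s ∈ Ico 0 T, ∀ B, ξ B = 1 → D.J s B ≠ 0 := by
    intro s hs B hB h
    have h3 : D.J 0 B = 0 := by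
      rcases eq_or_lt_of_le hs.1 with h0 | h0
      · subst h0; exact h
      · exact D.ker s ⟨h0, hs.2⟩ B h 0 h0T
    have := hξ B h3
    linarith
  have hpos : ∀ s ∈ Ico 0 T, 0 < y s := fun s hs => norm_pos_iff.2 (hne s hs _ (hM1 s))
  refine ⟨?_, ?_⟩
  · intro s hs c hc
    have hys := hpos s hs
    have hc' : c < y s := hc
    set δ : ℝ := min (1 / 2) ((y s - c) / (2 * y s)) with hδ
    have hδ0 : 0 < δ := lt_min (by norm_num) (div_pos (by linarith) (by linarith))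
    have hδ1 : δ < 1 := (min_le_left _ _).trans_lt (by norm_num)
    have hδ2 : δ * y s ≤ (y s - c) / 2 := by
      have h3 : δ ≤ (y s - c) / (2 * y s) := min_le_right _ _
      have h4 := mul_le_mul_of_nonneg_right h3 hys.le
      have h5 : (y s - c) / (2 * y s) * y s = (y s - c) / 2 := by field_simp
      rwa [h5] at h4
    filter_upwards [D.stmtS ξ hξ s hs δ hδ0 hδ1] with r hr
    obtain ⟨B, hB1, hB2⟩ := hr (M r)
    rw [hM1] at hB1
    have h3 := hyle s B hB1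
    have h4 : (1 - δ) * y s ≤ (1 - δ) * ‖D.J s B‖ := mul_le_mul_of_nonneg_left h3 (by linarith)
    have h5 : (1 - δ) * ‖D.J s B‖ ≤ y r := hB2
    change c < y r
    nlinarith
  · intro s hs
    obtain ⟨z, z', z'', hz1, hz2, hz3, hz4, hz5⟩ := D.stmtB ξ s hs (M s) (hM1 s) (hM2 s)
      (hne s ⟨hs.1.le, hs.2⟩ _ (hM1 s))
    refine ⟨z, z', z'', ?_, hz2, hz3, hz4, hz5⟩
    filter_upwards with r
    obtain ⟨B, hB1, hB2⟩ := hz1 r
    rw [hB2]
    exact hyle r B hB1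

theorem JF.foot_aux (D : JF V E k T) (hk : 0 < k) {t : ℝ} (ht : t ∈ Ioo 0 T) (A : V) :
    ‖D.J 0 A‖ / Real.sinh (k * T) * Real.sinh (k * (T - t)) ≤ ‖D.J t A‖ := by
  have hT : 0 < T := ht.1.trans ht.2
  by_cases hA : D.J 0 A = 0
  · rw [hA]; simp
  set n := ‖D.J 0 A‖ with hn
  have hn0 : 0 < n := norm_pos_iff.2 hA
  set ξ : V →ₗ[ℝ] ℝ := (1 / n ^ 2) • ((innerₛₗ ℝ (D.J 0 A)) ∘ₗ (D.J 0).toLinearMap) with hξ
  have hξa : ∀ B, ξ B = 1 / n ^ 2 * inner ℝ (D.J 0 A) (D.J 0 B) := fun B => rfl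
  have h1 : ξ A = 1 := by
    rw [hξa, real_inner_self_eq_norm_sq, ← hn]; field_simp
  have h2 : ∀ B, ξ B = 0 → inner ℝ (D.J 0 A) (D.J 0 B) = 0 := by
    intro B hB
    rw [hξa] at hB
    rcases mul_eq_zero.1 hB with h | h
    · exfalso; have : 0 < 1 / n ^ 2 := by positivity
      linarith
    · exact h
  have h3 : ∀ B, D.J 0 B = 0 → ξ B = 0 := by
    intro B hB
    rw [hξa, hB, inner_zero_right, mul_zero]
  choose M hM1 hM2 using D.exists_min ξ A h1
  obtain ⟨hlsc, hbar⟩ := D.min_props hT ξ h3 M hM1 hM2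
  have hy0 : ‖D.J 0 (M 0)‖ = n :=
    le_antisymm (D.min_le ξ (hM1 0) (hM2 0) h1) (D.min_le ξ h1 h2 (hM1 0))
  have hyt : ‖D.J t (M t)‖ ≤ ‖D.J t A‖ := D.min_le ξ (hM1 t) (hM2 t) h1
  refine le_trans ?_ hyt
  have hlim : Tendsto (fun T' : ℝ => n / Real.sinh (k * T') * Real.sinh (k * (T' - t)))
      (𝓝[<] T) (𝓝 (n / Real.sinh (k * T) * Real.sinh (k * (T - t)))) := by
    apply Tendsto.mono_left _ nhdsWithin_le_nhds
    have hs : Real.sinh (k * T) ≠ 0 := (Real.sinh_pos_iff.2 (mul_pos hk hT)).ne'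
    have h4 : ContinuousAt (fun T' : ℝ => n / Real.sinh (k * T') * Real.sinh (k * (T' - t))) T := by
      fun_prop (disch := exact hs)
    exact h4
  refine le_of_tendsto hlim ?_
  filter_upwards [Ioo_mem_nhdsLT ht.2] with T' hT'
  have := low_scalar hk (fun s => ‖D.J s (M s)‖) hlsc hbar (fun s _ => norm_nonneg _)
    (T' := T') ⟨ht.1.trans hT'.1, hT'.2⟩ t ⟨ht.1.le, hT'.1.le⟩
  simp only [hy0] at this
  exact this

/-- The foot point map of the tube of radius `T/2` is Lipschitz. -/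
theorem JF.foot (D : JF V E k T) (hk : 0 < k) {t : ℝ} (ht : t ∈ Ioc 0 (T / 2)) (A : V) :
    ‖D.J 0 A‖ ≤ 2 * Real.cosh (k * T) * ‖D.J t A‖ := by
  have hT : 0 < T := by linarith [ht.1, ht.2]
  have h1 := D.foot_aux hk (t := t) ⟨ht.1, by linarith [ht.2]⟩ A
  have hh : 0 < Real.sinh (k * (T / 2)) := Real.sinh_pos_iff.2 (by positivity)
  have h2 : Real.sinh (k * T) = 2 * Real.sinh (k * (T / 2)) * Real.cosh (k * (T / 2)) := by
    rw [← Real.sinh_two_mul]; congr 1; ring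
  have h3 : Real.sinh (k * (T / 2)) ≤ Real.sinh (k * (T - t)) :=
    Real.sinh_le_sinh.2 (mul_le_mul_of_nonneg_left (by linarith [ht.2]) hk.le)
  have hc : 0 < Real.cosh (k * (T / 2)) := Real.cosh_pos _
  have h4 : ‖D.J 0 A‖ / Real.sinh (k * T) * Real.sinh (k * (T / 2)) ≤ ‖D.J t A‖ :=
    (mul_le_mul_of_nonneg_left h3 (by rw [h2]; positivity)).trans h1
  have h5 : ‖D.J 0 A‖ / Real.sinh (k * T) * Real.sinh (k * (T / 2)) =
      ‖D.J 0 A‖ / (2 * Real.cosh (k * (T / 2))) := by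
    rw [h2]; field_simp
  rw [h5, div_le_iff₀ (by positivity)] at h4
  have h6 : Real.cosh (k * (T / 2)) ≤ Real.cosh (k * T) := by
    rw [Real.cosh_le_cosh, abs_of_nonneg (by positivity), abs_of_nonneg (by positivity)]
    nlinarith
  calc ‖D.J 0 A‖ ≤ ‖D.J t A‖ * (2 * Real.cosh (k * (T / 2))) := h4
    _ ≤ ‖D.J t A‖ * (2 * Real.cosh (k * T)) :=
      mul_le_mul_of_nonneg_left (by linarith) (norm_nonneg _)
    _ = 2 * Real.cosh (k * T) * ‖D.J t A‖ := by ring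

end

end

end Pool.Agent.Helper54.SO
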