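import Pool.Agent.Helper54.SO.G

/-! Project SO: piece X, part 1: paths and exponentials. -/

namespace Pool.Agent.Helper54.SO

open Filter Topology Set
open scoped ContDiff

noncomputable section

section join
variable {E : Type*} [NormedAddCommGroup E] [InnerProductSpace ℝ E]

theorem JoinLe.refl {S : Set E} {x : E} (hx : x ∈ S) : JoinLe S 0 x x :=
  ⟨le_rfl, fun _ => x, LipschitzOnWith.of_dist_le_mul (by intro a _ b _; simp), fun _ _ => hx,
    rfl, rfl⟩

theorem JoinLe.mono {S : Set E} {a b : ℝ} {x y : E} (h : JoinLe S a x y) (hab : a ≤ b) :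
    JoinLe S b x y := by
  obtain ⟨ha, c, hc, hS, h0, h1⟩ := h
  refine ⟨ha.trans hab, fun s => c (min s a), ?_, fun s hs => hS _ ⟨le_min hs.1 ha, min_le_right _ _⟩,
    ?_, ?_⟩
  · apply LipschitzOnWith.of_dist_le_mul
    intro s hs r hr
    have h2 := hc.dist_le_mul (min s a) ⟨le_min hs.1 ha, min_le_right _ _⟩ (min r a)
      ⟨le_min hr.1 ha, min_le_right _ _⟩
    refine h2.trans ?_
    simp only [NNReal.coe_one, one_mul, Real.dist_eq]
    have h3 := abs_min_sub_min_le_max s a r a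
    rwa [sub_self, abs_zero, max_eq_left (abs_nonneg _)] at h3
  · change c (min 0 a) = x
    rw [min_eq_left ha, h0]
  · change c (min b a) = y
    rw [min_eq_right hab, h1]

theorem JoinLe.trans {S : Set E} {a b : ℝ} {x y z : E} (h : JoinLe S a x y)
    (h' : JoinLe S b y z) : JoinLe S (a + b) x z := by
  obtain ⟨ha, c, hc, hS, h0, h1⟩ := h
  obtain ⟨hb, d, hd, hS', h0', h1'⟩ := h'
  refine ⟨add_nonneg ha hb, fun s => c (min s a) + (d (max (s - a) 0) - y), ?_, ?_, ?_, ?_⟩
  · apply LipschitzOnWith.of_dist_le_mul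
    intro s hs r hr
    have h2 := hc.dist_le_mul (min s a) ⟨le_min hs.1 ha, min_le_right _ _⟩ (min r a)
      ⟨le_min hr.1 ha, min_le_right _ _⟩
    have h3 := hd.dist_le_mul (max (s - a) 0) ⟨le_max_right _ _, max_le (by linarith [hs.2]) hb⟩
      (max (r - a) 0) ⟨le_max_right _ _, max_le (by linarith [hr.2]) hb⟩
    simp only [NNReal.coe_one, one_mul, Real.dist_eq] at h2 h3 ⊢
    have h4 : |min s a - min r a| + |max (s - a) 0 - max (r - a) 0| = |s - r| := by
      rcases le_total s a with h | h <;> rcases le_total r a with h' | h'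
      · rw [min_eq_left h, min_eq_left h', max_eq_right (by linarith : s - a ≤ 0),
          max_eq_right (by linarith : r - a ≤ 0), sub_self, abs_zero, add_zero]
      · rw [min_eq_left h, min_eq_right h', max_eq_right (by linarith : s - a ≤ 0),
          max_eq_left (by linarith : 0 ≤ r - a), abs_of_nonpos (by linarith : s - a ≤ 0),
          abs_of_nonpos (by linarith : 0 - (r - a) ≤ 0), abs_of_nonpos (by linarith : s - r ≤ 0)]
        ring
      · rw [min_eq_right h, min_eq_left h', max_eq_left (by linarith : 0 ≤ s - a),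
          max_eq_right (by linarith : r - a ≤ 0), abs_of_nonneg (by linarith : 0 ≤ a - r),
          abs_of_nonneg (by linarith : 0 ≤ s - a - 0), abs_of_nonneg (by linarith : 0 ≤ s - r)]
        ring
      · rw [min_eq_right h, min_eq_right h', max_eq_left (by linarith : 0 ≤ s - a),
          max_eq_left (by linarith : 0 ≤ r - a), sub_self, abs_zero, zero_add,
          sub_sub_sub_cancel_right]
    calc dist (c (min s a) + (d (max (s - a) 0) - y)) (c (min r a) + (d (max (r - a) 0) - y))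
        ≤ dist (c (min s a)) (c (min r a)) + dist (d (max (s - a) 0) - y) (d (max (r - a) 0) - y) :=
          dist_add_add_le _ _ _ _
      _ = dist (c (min s a)) (c (min r a)) + dist (d (max (s - a) 0)) (d (max (r - a) 0)) := by
          rw [dist_sub_right]
      _ ≤ |s - r| := by linarith
  · intro s hs
    rcases le_total s a with h | h
    · have : c (min s a) + (d (max (s - a) 0) - y) = c s := by
        rw [min_eq_left h, max_eq_right (by linarith : s - a ≤ 0), h0', sub_self, add_zero]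
      change c (min s a) + (d (max (s - a) 0) - y) ∈ S
      rw [this]
      exact hS s ⟨hs.1, h⟩
    · have : c (min s a) + (d (max (s - a) 0) - y) = d (s - a) := by
        rw [min_eq_right h, max_eq_left (by linarith : 0 ≤ s - a), h1]; abel
      change c (min s a) + (d (max (s - a) 0) - y) ∈ S
      rw [this]
      exact hS' _ ⟨by linarith, by linarith [hs.2]⟩
  · change c (min 0 a) + (d (max (0 - a) 0) - y) = x
    rw [min_eq_left ha, max_eq_right (by linarith : 0 - a ≤ 0), h0', h0, sub_self, add_zero]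
  · change c (min (a + b) a) + (d (max (a + b - a) 0) - y) = z
    rw [min_eq_right (by linarith : a ≤ a + b), add_sub_cancel_left, max_eq_left hb, h1, h1']
    abel

theorem JoinLe.map {S : Set E} {a : ℝ} {x y : E} (h : JoinLe S a x y) (φ : E ≃ₗᵢ[ℝ] E)
    (hφ : ∀ z ∈ S, φ z ∈ S) : JoinLe S a (φ x) (φ y) := by
  obtain ⟨ha, c, hc, hS, h0, h1⟩ := h
  refine ⟨ha, fun s => φ (c s), ?_, fun s hs => hφ _ (hS s hs), congrArg φ h0,
    congrArg φ h1⟩
  apply LipschitzOnWith.of_dist_le_mul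
  intro s hs r hr
  rw [φ.dist_map]
  exact hc.dist_le_mul s hs r hr

theorem JoinLe.of_lip {S : Set E} {K : ℝ} (hK : 0 < K) (c : ℝ → E)
    (hS : ∀ u ∈ Icc (0:ℝ) 1, c u ∈ S)
    (hc : ∀ u ∈ Icc (0:ℝ) 1, ∀ v ∈ Icc (0:ℝ) 1, ‖c u - c v‖ ≤ K * |u - v|) :
    JoinLe S K (c 0) (c 1) := by
  have hI : ∀ s ∈ Icc 0 K, s / K ∈ Icc (0:ℝ) 1 := fun s hs =>
    ⟨div_nonneg hs.1 hK.le, (div_le_one hK).2 hs.2⟩
  refine ⟨hK.le, fun s => c (s / K), ?_, fun s hs => hS _ (hI s hs), by simp, ?_⟩
  · apply LipschitzOnWith.of_dist_le_mul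
    intro s hs r hr
    have h1 := hc _ (hI s hs) _ (hI r hr)
    rw [dist_eq_norm, Real.dist_eq, NNReal.coe_one, one_mul]
    refine h1.trans (le_of_eq ?_)
    rw [← sub_div, abs_div, abs_of_pos hK]
    field_simp
  · change c (K / K) = c 1
    rw [div_self hK.ne']

end join

section exps
variable {E : Type*} [NormedAddCommGroup E] [InnerProductSpace ℝ E] [FiniteDimensional ℝ E]

theorem exp_apply_fix {Z : E →L[ℝ] E} {x : E} (h : Z x = 0) : NormedSpace.exp Z x = x := by
  have h1 : ∀ s : ℝ, HasDerivAt (fun s : ℝ => NormedSpace.exp (s • Z) x) 0 s := by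
    intro s
    have := hasDerivAt_exp_apply Z x s
    rwa [h, map_zero] at this
  have h2 := is_const_of_deriv_eq_zero (f := fun s : ℝ => NormedSpace.exp (s • Z) x)
    (fun s => (h1 s).differentiableAt) (fun s => (h1 s).deriv) 1 0
  simpa [NormedSpace.exp_zero] using h2

theorem exp_conj_apply (φ : E ≃ₗᵢ[ℝ] E) {A B : E →L[ℝ] E} (h : ∀ x, φ (B x) = A (φ x)) (x : E) :
    φ (NormedSpace.exp B x) = NormedSpace.exp A (φ x) := by
  have : CompleteSpace E := FiniteDimensional.complete ℝ E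
  let _ : NormedAlgebra ℚ (E →L[ℝ] E) := NormedAlgebra.restrictScalars ℚ ℝ _
  set y : E →L[ℝ] E := φ.toContinuousLinearEquiv.toContinuousLinearMap with hy
  have h1 : SemiconjBy y B A := by
    ext z
    exact h z
  have h2 := h1.exp_right
  exact DFunLike.congr_fun h2.eq x

theorem exp_nat_smul (n : ℕ) (A : E →L[ℝ] E) :
    NormedSpace.exp ((n : ℝ) • A) = NormedSpace.exp A ^ n := by
  have : CompleteSpace E := FiniteDimensional.complete ℝ E
  let _ : NormedAlgebra ℚ (E →L[ℝ] E) := NormedAlgebra.restrictScalars ℚ ℝ _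
  rw [Nat.cast_smul_eq_nsmul]
  exact NormedSpace.exp_nsmul n A

theorem exp_strict_aux {𝔸 : Type*} [NormedRing 𝔸] [NormedAlgebra ℝ 𝔸] [CompleteSpace 𝔸] {η : ℝ}
    (hη : 0 < η) : ∃ r > 0, ∀ X Z : 𝔸, ‖X‖ ≤ r → ‖Z‖ ≤ r →
    ‖NormedSpace.exp X - NormedSpace.exp Z - (X - Z)‖ ≤ η * ‖X - Z‖ := by
  have h1 : ∀ᶠ p : 𝔸 × 𝔸 in 𝓝 (0, 0),
      ‖NormedSpace.exp p.1 - NormedSpace.exp p.2 - (p.1 - p.2)‖ ≤ η * ‖p.1 - p.2‖ :=
    (hasStrictFDerivAt_exp_zero (𝕂 := ℝ) (𝔸 := 𝔸)).isLittleO.def hη
  obtain ⟨ε, hε, h2⟩ := Metric.eventually_nhds_iff.1 h1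
  refine ⟨ε / 2, half_pos hε, fun X Z hX hZ => ?_⟩
  have h3 : dist (X, Z) ((0 : 𝔸), (0 : 𝔸)) < ε := by
    rw [Prod.dist_eq, dist_zero_right, dist_zero_right]
    exact max_lt (by linarith) (by linarith)
  exact h2 h3

/-- the exponential is strictly differentiable at zero with derivative the identity -/
theorem exp_strict {η : ℝ} (hη : 0 < η) : ∃ r > 0, ∀ X Z : E →L[ℝ] E, ‖X‖ ≤ r → ‖Z‖ ≤ r →
    ‖NormedSpace.exp X - NormedSpace.exp Z - (X - Z)‖ ≤ η * ‖X - Z‖ := by
  have : CompleteSpace E := FiniteDimensional.complete ℝ E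
  exact exp_strict_aux hη

end exps

end

end Pool.Agent.Helper54.SO
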