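import Pool.Agent.Helper54.SO.Tube
import Pool.Agent.Helper54.SO.X1

/-! Project SO: piece L2, local structure of the tube. -/

namespace Pool.Agent.Helper54.SO

open Filter Topology Set
open scoped ContDiff

noncomputable section

section
variable {E : Type*} [NormedAddCommGroup E] [InnerProductSpace ℝ E] [FiniteDimensional ℝ E]

/-- Two nearby points of a smooth retract whose difference is normal coincide. -/
theorem graph_unique {M : Set E} {y : E} (hy : y ∈ M) {r : E → E} (hr : ContDiffAt ℝ ∞ r y)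
    (hrM : ∀ᶠ z in 𝓝 y, r z ∈ M ∧ (z ∈ M → r z = z)) :
    ∃ ε > 0, ∀ y₁ ∈ M, ∀ y₂ ∈ M, ‖y₁ - y‖ < ε → ‖y₂ - y‖ < ε →
      (∀ w ∈ tang M y, inner ℝ (y₁ - y₂) w = 0) → y₁ = y₂ := by
  have hry : r y = y := hrM.self_of_nhds.2 hy
  have hstrict := hr.hasStrictFDerivAt (by simp)
  set r' := fderiv ℝ r y with hr'
  have hrange : ∀ w, r' w ∈ tang M y := by
    intro w
    apply Submodule.subset_span
    refine ⟨fun t => r (y + t • w), ?_, ?_, ?_, ?_⟩
    · have h1 : ContDiffAt ℝ ∞ (fun t : ℝ => y + t • w) 0 := by fun_prop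
      have h2 : ContDiffAt ℝ ∞ r ((fun t : ℝ => y + t • w) 0) := by simpa using hr
      exact h2.comp 0 h1
    · simp [hry]
    · have h1 : Tendsto (fun t : ℝ => y + t • w) (𝓝 0) (𝓝 y) := by
        have : Continuous fun t : ℝ => y + t • w := by fun_prop
        simpa using this.tendsto 0
      filter_upwards [h1.eventually hrM] with t ht
      exact ht.1
    · have h1 : HasDerivAt (fun t : ℝ => y + t • w) w 0 := by
        have := ((hasDerivAt_id (0:ℝ)).smul_const w).const_add y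
        simpa using this
      have h2 : HasFDerivAt r r' ((fun t : ℝ => y + t • w) 0) := by
        simpa using hstrict.hasFDerivAt
      exact (h2.comp_hasDerivAt 0 h1).deriv
  have h1 := hstrict.isLittleO.def (show (0:ℝ) < 1 / 2 by norm_num)
  obtain ⟨ε₁, hε₁, h2⟩ := Metric.eventually_nhds_iff.1 h1
  obtain ⟨ε₂, hε₂, h3⟩ := Metric.eventually_nhds_iff.1 hrM
  refine ⟨min ε₁ ε₂, lt_min hε₁ hε₂, fun y₁ hy₁ y₂ hy₂ hd₁ hd₂ horth => ?_⟩
  have h4 : dist (y₁, y₂) (y, y) < ε₁ := by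
    rw [Prod.dist_eq, dist_eq_norm, dist_eq_norm]
    exact max_lt (hd₁.trans_le (min_le_left _ _)) (hd₂.trans_le (min_le_left _ _))
  have h5 := h2 h4
  have h6 : r y₁ = y₁ := (h3 (by rw [dist_eq_norm]; exact hd₁.trans_le (min_le_right _ _))).2 hy₁
  have h7 : r y₂ = y₂ := (h3 (by rw [dist_eq_norm]; exact hd₂.trans_le (min_le_right _ _))).2 hy₂
  simp only [h6, h7] at h5
  set ν := y₁ - y₂ with hν
  have h8 : inner ℝ ν (r' ν) = 0 := horth _ (hrange ν)
  have h9 : ‖ν‖ ^ 2 ≤ 1 / 2 * ‖ν‖ * ‖ν‖ := by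
    have h10 : inner ℝ ν (ν - r' ν) = ‖ν‖ ^ 2 := by
      rw [inner_sub_right, h8, sub_zero, real_inner_self_eq_norm_sq]
    rw [← h10]
    calc inner ℝ ν (ν - r' ν) ≤ ‖ν‖ * ‖ν - r' ν‖ := real_inner_le_norm _ _
      _ ≤ ‖ν‖ * (1 / 2 * ‖ν‖) := mul_le_mul_of_nonneg_left h5 (norm_nonneg _)
      _ = 1 / 2 * ‖ν‖ * ‖ν‖ := by ring
  have h11 : ‖ν‖ = 0 := by nlinarith [norm_nonneg ν]
  exact sub_eq_zero.1 (norm_eq_zero.1 h11)

end

section
variable {E : Type*} [NormedAddCommGroup E] [InnerProductSpace ℝ E] [FiniteDimensional ℝ E]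
  {Γ : Type*} [Group Γ] {k T : ℝ}

/-- Local structure of the tube at `γ s`, `0 < s < T`. -/
theorem Tube.loc (D : Tube E Γ k T) {s : ℝ} (hs : s ∈ Ioo 0 T) :
    ∃ ε > 0, ∀ y' ∈ D.M, ‖y' - D.γ s‖ < ε → ∃ A ∈ D.𝔤, ∃ τ : ℝ, s + τ ∈ Ioo 0 T ∧
      y' = NormedSpace.exp A (D.γ (s + τ)) ∧ ‖A (D.γ s)‖ ≤ 2 * ‖y' - D.γ s‖ ∧
      |τ| ≤ 2 * ‖y' - D.γ s‖ := by
  have hsT : s ∈ Ioo (-T) T := ⟨by linarith [hs.1, hs.2], hs.2⟩
  set y := D.γ s with hy
  set v := deriv D.γ s with hv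
  have hyM : y ∈ D.M := D.mem s hsT
  set R := LinearMap.range (ev D.𝔤 y).toLinearMap with hR
  obtain ⟨σ, hσ⟩ := (ev D.𝔤 y).toLinearMap.rangeRestrict.exists_rightInverse_of_surjective
    (LinearMap.range_rangeRestrict _)
  have hσy : ∀ w : R, (σ w : E →L[ℝ] E) y = w := fun w =>
    congrArg Subtype.val (LinearMap.congr_fun hσ w)
  -- the linear map `L : E → operators`
  set L₀ : E →ₗ[ℝ] (E →L[ℝ] E) :=
    D.𝔤.subtype ∘ₗ σ ∘ₗ R.orthogonalProjectionOnto.toLinearMap with hL₀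
  set L : E →L[ℝ] (E →L[ℝ] E) := LinearMap.toContinuousLinearMap L₀ with hL
  have hLg : ∀ x, L x ∈ D.𝔤 := fun x => (σ (R.orthogonalProjectionOnto x)).2
  have hLy : ∀ x, L x y = R.starProjection x := fun x => hσy (R.orthogonalProjectionOnto x)
  have hvv : inner ℝ v v = (1:ℝ) := by
    rw [real_inner_self_eq_norm_sq, hv, D.unit s hsT, one_pow]
  have hvn : ‖v‖ = 1 := D.unit s hsT
  have hvR : ∀ w ∈ R, inner ℝ v w = 0 := by
    rintro w ⟨B, rfl⟩
    exact D.orth s hsT B.1 B.2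
  have htan : tang D.M y = Submodule.span ℝ {v} ⊔ R := D.tan s hsT hs.1.ne'
  -- the chart
  set N : E →L[ℝ] E := ContinuousLinearMap.id ℝ E - R.starProjection -
    (innerSL ℝ v).smulRight v with hN
  have hNx : ∀ x, N x = x - R.starProjection x - inner ℝ v x • v := fun x => rfl
  set Φ : E → E := fun x => NormedSpace.exp (L x) (D.γ (s + inner ℝ v x)) + N x with hΦ
  have hΦ0 : Φ 0 = y := by
    simp only [hΦ, map_zero, inner_zero_right, add_zero, NormedSpace.exp_zero]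
    rfl
  have : CompleteSpace E := FiniteDimensional.complete ℝ E
  have hinner : ContDiff ℝ ∞ fun x : E => s + inner ℝ v x :=
    contDiff_const.add (innerSL ℝ v).contDiff
  have hγc : ContDiffAt ℝ ∞ (fun x : E => D.γ (s + inner ℝ v x)) 0 := by
    have h3 : ContDiffAt ℝ ∞ D.γ ((fun x : E => s + inner ℝ v x) 0) := by
      simp only [inner_zero_right, add_zero]
      exact D.smooth.contDiffAt (Ioo_mem_nhds hsT.1 hsT.2)
    exact h3.comp 0 hinner.contDiffAt
  have hexpc : ContDiffAt ℝ ∞ (fun x : E => NormedSpace.exp (L x)) 0 := by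
    have h1 : ContDiffAt ℝ ∞ (NormedSpace.exp : (E →L[ℝ] E) → (E →L[ℝ] E)) (L 0) :=
      (NormedSpace.exp_analytic (𝕂 := ℝ) (L 0)).contDiffAt
    exact h1.comp 0 L.contDiff.contDiffAt
  have hΦc : ContDiffAt ℝ ∞ Φ 0 := (hexpc.clm_apply hγc).add N.contDiff.contDiffAt
  have hΦd : HasFDerivAt Φ (ContinuousLinearMap.id ℝ E) 0 := by
    have h0 : HasFDerivAt (NormedSpace.exp : (E →L[ℝ] E) → (E →L[ℝ] E))
        (1 : (E →L[ℝ] E) →L[ℝ] (E →L[ℝ] E)) (L 0) := by
      rw [map_zero]; exact hasFDerivAt_exp_zero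
    have h1 : HasFDerivAt (fun x : E => NormedSpace.exp (L x))
        ((1 : (E →L[ℝ] E) →L[ℝ] (E →L[ℝ] E)).comp L) 0 := h0.comp 0 L.hasFDerivAt
    have h2 : HasFDerivAt (fun x : E => s + inner ℝ v x) (innerSL ℝ v) 0 :=
      (innerSL ℝ v).hasFDerivAt.const_add s
    have h3 : HasDerivAt D.γ v ((fun x : E => s + inner ℝ v x) 0) := by
      simp only [inner_zero_right, add_zero]
      exact D.toEnd.hasDerivAt_γ hsT
    have h4 : HasFDerivAt (fun x : E => D.γ (s + inner ℝ v x)) ((innerSL ℝ v).smulRight v) 0 := by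
      have := h3.hasFDerivAt.comp 0 h2
      refine this.congr_fderiv ?_
      ext x; simp
    have h5 := (h1.clm_apply h4).add N.hasFDerivAt
    refine h5.congr_fderiv ?_
    ext x
    simp only [map_zero, inner_zero_right, add_zero, NormedSpace.exp_zero]
    change (1 : E →L[ℝ] E) (inner ℝ v x • v) + L x y + N x = x
    rw [hLy, hNx]
    change inner ℝ v x • v + R.starProjection x + (x - R.starProjection x - inner ℝ v x • v) = x
    abel
  have hstrict : HasStrictFDerivAt Φ (ContinuousLinearMap.id ℝ E) 0 :=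
    hΦc.hasStrictFDerivAt' hΦd (by simp)
  -- estimate
  have hest := hΦd.isLittleO.def (show (0:ℝ) < 1 / 2 by norm_num)
  obtain ⟨ε₁, hε₁, h2⟩ := Metric.eventually_nhds_iff.1 hest
  obtain ⟨r, hr, hrM⟩ := D.retr y hyM
  obtain ⟨ε₂, hε₂, huniq⟩ := graph_unique hyM hr hrM
  -- the point of `M` without the normal part is close to `y`
  have hcont : ContinuousAt (fun x : E => NormedSpace.exp (L x) (D.γ (s + inner ℝ v x))) 0 :=
    (hexpc.clm_apply hγc).continuousAt
  have hval : NormedSpace.exp (L 0) (D.γ (s + inner ℝ v (0:E))) = y := by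
    simp only [map_zero, inner_zero_right, add_zero, NormedSpace.exp_zero]
    rfl
  have hclose : ∀ᶠ x in 𝓝 (0:E), ‖NormedSpace.exp (L x) (D.γ (s + inner ℝ v x)) - y‖ < ε₂ := by
    have h3 := hcont.tendsto
    rw [hval] at h3
    have h4 := (Metric.tendsto_nhds.1 h3) ε₂ hε₂
    filter_upwards [h4] with x hx
    rwa [dist_eq_norm] at hx
  have hin : ∀ᶠ x in 𝓝 (0:E), s + inner ℝ v x ∈ Ioo 0 T := by
    have h3 : Tendsto (fun x : E => s + inner ℝ v x) (𝓝 0) (𝓝 s) := by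
      have := hinner.continuous.tendsto 0
      simpa using this
    exact h3.eventually (Ioo_mem_nhds hs.1 hs.2)
  have hball : ∀ᶠ x in 𝓝 (0:E), dist x 0 < ε₁ := Metric.ball_mem_nhds _ hε₁
  have hall := hball.and (hclose.and hin)
  have himg : Φ '' {x | dist x 0 < ε₁ ∧ ‖NormedSpace.exp (L x) (D.γ (s + inner ℝ v x)) - y‖ < ε₂ ∧
      s + inner ℝ v x ∈ Ioo 0 T} ∈ 𝓝 y := by
    have h3 : HasStrictFDerivAt Φ ((ContinuousLinearEquiv.refl ℝ E : E ≃L[ℝ] E) : E →L[ℝ] E) 0 :=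
      hstrict
    have h4 := h3.map_nhds_eq_of_equiv
    rw [hΦ0] at h4
    rw [← h4]
    exact image_mem_map hall
  obtain ⟨ε₃, hε₃, hball₃⟩ := Metric.mem_nhds_iff.1 himg
  refine ⟨min ε₂ ε₃, lt_min hε₂ hε₃, fun y' hy' hd => ?_⟩
  have hy'b : y' ∈ Metric.ball y ε₃ := by
    rw [Metric.mem_ball, dist_eq_norm]; exact hd.trans_le (min_le_right _ _)
  obtain ⟨x, ⟨hx1, hx2, hx3⟩, hxy⟩ := hball₃ hy'b
  set q := NormedSpace.exp (L x) (D.γ (s + inner ℝ v x)) with hq
  have hqM : q ∈ D.M := by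
    obtain ⟨g, hg⟩ := D.exp (L x) (hLg x)
    rw [hq, ← hg]
    exact D.inv g _ (D.mem _ ⟨by linarith [hx3.1, hx3.2], hx3.2⟩)
  have hdiff : y' - q = N x := by
    rw [← hxy]; simp only [hΦ]; rw [← hq]; abel
  have hqy : y' = q := by
    refine huniq y' hy' q hqM (hd.trans_le (min_le_left _ _)) hx2 ?_
    intro w hw
    rw [hdiff, hNx]
    rw [htan] at hw
    obtain ⟨w1, hw1, w2, hw2, rfl⟩ := Submodule.mem_sup.1 hw
    obtain ⟨a, rfl⟩ := Submodule.mem_span_singleton.1 hw1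
    have e1 : inner ℝ (x - R.starProjection x) w2 = 0 :=
      (Submodule.mem_orthogonal' _ _).1 (Submodule.sub_starProjection_mem_orthogonal x) _ hw2
    have e2 : inner ℝ (R.starProjection x) v = 0 := by
      rw [real_inner_comm]; exact hvR _ (Submodule.starProjection_apply_mem _ _)
    rw [inner_add_right, inner_smul_right, inner_sub_left, inner_sub_left, inner_sub_left, e2,
      inner_smul_left, hvv, inner_smul_left, hvR _ hw2, e1, real_inner_comm]
    simp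
  have hxn : ‖x‖ ≤ 2 * ‖y' - y‖ := by
    have h3 := h2 hx1
    simp only [hΦ0, sub_zero, hxy] at h3
    have h4 : ‖x‖ ≤ ‖y' - y‖ + ‖y' - y - x‖ := by
      have := norm_sub_le (y' - y) (y' - y - x)
      simpa using this
    have h5 : ‖y' - y - x‖ ≤ 1 / 2 * ‖x‖ := h3
    linarith
  refine ⟨L x, hLg x, inner ℝ v x, hx3, hqy, ?_, ?_⟩
  · rw [hLy]
    exact (Submodule.norm_starProjection_apply_le _ _).trans hxn
  · have h3 := abs_real_inner_le_norm v x
    rw [hvn, one_mul] at h3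
    exact h3.trans hxn

end

end

end Pool.Agent.Helper54.SO
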