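import Pool.Agent.Helper54.SO.Stmts
import Pool.Agent.Helper54.SO.X1

/-! Project SO: piece X, the step along exponentials. -/

namespace Pool.Agent.Helper54.SO

open Filter Topology Set
open scoped ContDiff

noncomputable section

theorem bound_lin {V : Type*} [NormedAddCommGroup V] [NormedSpace ℝ V] [FiniteDimensional ℝ V]
    (P : V →ₗ[ℝ] V) : ∃ b : ℝ, 0 ≤ b ∧ ∀ A, ‖P A‖ ≤ b * ‖A‖ :=
  ⟨‖LinearMap.toContinuousLinearMap P‖, norm_nonneg _,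
    fun A => (LinearMap.toContinuousLinearMap P).le_opNorm A⟩

variable {E : Type*} [NormedAddCommGroup E] [InnerProductSpace ℝ E] [FiniteDimensional ℝ E]
  {Γ : Type*} [Group Γ] {k T : ℝ}

namespace End

variable (D : End E Γ k T)

theorem ρ_mul (g h : Γ) (x : E) : D.ρ (g * h) x = D.ρ g (D.ρ h x) := by
  rw [map_mul]; rfl

theorem ρ_one (x : E) : D.ρ 1 x = x := by
  rw [map_one]; rfl

theorem ρ_inv_ρ (g : Γ) (x : E) : D.ρ g (D.ρ g⁻¹ x) = x := by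
  rw [← D.ρ_mul, mul_inv_cancel, D.ρ_one]

theorem orb_inv (x : E) (g : Γ) : ∀ z ∈ D.orb x, D.ρ g z ∈ D.orb x := by
  rintro z ⟨h, rfl⟩
  exact ⟨g * h, (D.ρ_mul g h x).symm⟩

theorem substep {t C : ℝ} (hC : 0 ≤ C) (P : D.𝔤 →ₗ[ℝ] D.𝔤)
    (hP0 : ∀ A, ev D.𝔤 (D.γ 0) (P A) = 0)
    (hP : ∀ A, ‖ev D.𝔤 (D.γ t) (A - P A)‖ ≤ C * ‖ev D.𝔤 (D.γ 0) A‖)
    (A : E →L[ℝ] E) (hA : A ∈ D.𝔤) {η : ℝ} (hη : 0 < η) :
    ∃ N : ℕ, 0 < N ∧ ∀ h : Γ, (∀ x, D.ρ h x = NormedSpace.exp ((1 / (N:ℝ)) • A) x) →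
      ∀ l : Γ, D.ρ l (D.γ 0) = D.γ 0 →
      ∃ l' : Γ, D.ρ l' (D.γ 0) = D.γ 0 ∧
        JoinLe (D.orb (D.γ t)) ((C * ‖A (D.γ 0)‖ + η) / N) (D.ρ l' (D.γ t))
          (D.ρ (h * l) (D.γ t)) := by
  obtain ⟨b, hb0, hb⟩ := @bound_lin D.𝔤 _ inferInstance inferInstance P
  set q := D.γ t with hq
  set p := D.γ 0 with hp
  set B : ℝ := (1 + b) * ‖A‖ with hB
  have hB0 : 0 ≤ B := by positivity
  set η' : ℝ := η / (B * ‖q‖ + 1) with hη'
  have hη'0 : 0 < η' := by positivity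
  have hη'B : η' * B * ‖q‖ ≤ η := by
    rw [hη', div_mul_eq_mul_div, div_mul_eq_mul_div, div_le_iff₀ (by positivity)]
    nlinarith [norm_nonneg q, mul_nonneg hB0 (norm_nonneg q)]
  obtain ⟨r, hr, hexp⟩ := exp_strict (E := E) hη'0
  set N : ℕ := ⌈B / r⌉₊ + 1 with hN
  have hN0 : 0 < N := Nat.succ_pos _
  have hNr : (0:ℝ) < N := by exact_mod_cast hN0
  have hBN : 1 / (N : ℝ) * B ≤ r := by
    have h1 : B / r ≤ N := (Nat.le_ceil _).trans (by rw [hN]; push_cast; linarith)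
    rw [div_le_iff₀ hr] at h1
    rw [one_div, inv_mul_le_iff₀ hNr]
    exact h1
  refine ⟨N, hN0, fun h hh l hl => ?_⟩
  obtain ⟨A', hA', hA'x⟩ := D.ad l A hA
  have hA'n : ‖A'‖ ≤ ‖A‖ := A'.opNorm_le_bound (norm_nonneg _) (fun x => by
    rw [hA'x, LinearIsometryEquiv.norm_map]
    refine (A.le_opNorm _).trans_eq ?_
    rw [LinearIsometryEquiv.norm_map])
  set Y : D.𝔤 := P ⟨A', hA'⟩ with hY
  have hYn : ‖(Y : E →L[ℝ] E)‖ ≤ b * ‖A‖ :=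
    (hb ⟨A', hA'⟩).trans (mul_le_mul_of_nonneg_left hA'n hb0)
  have hY0 : (Y : E →L[ℝ] E) p = 0 := hP0 _
  have hA'p : ‖A' p‖ = ‖A p‖ := by
    rw [hA'x, hl, LinearIsometryEquiv.norm_map]
  set W : E →L[ℝ] E := A' - Y with hW
  have hWq : ‖W q‖ ≤ C * ‖A p‖ := by
    rw [← hA'p]; exact hP ⟨A', hA'⟩
  have hWn : ‖W‖ ≤ B := by
    have := norm_sub_le A' (Y : E →L[ℝ] E)
    rw [hB]; linarith
  set Z : ℝ → (E →L[ℝ] E) := fun u => (1 / (N:ℝ)) • ((Y : E →L[ℝ] E) + u • W) with hZ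
  have hZg : ∀ u, Z u ∈ D.𝔤 := fun u =>
    D.𝔤.smul_mem _ (D.𝔤.add_mem Y.2 (D.𝔤.smul_mem _ (D.𝔤.sub_mem hA' Y.2)))
  have hZ0 : Z 0 = (1 / (N:ℝ)) • (Y : E →L[ℝ] E) := by
    simp only [hZ]; rw [zero_smul, add_zero]
  have hZ1 : Z 1 = (1 / (N:ℝ)) • A' := by
    simp only [hZ]; rw [one_smul, hW, add_sub_cancel]
  have hZn : ∀ u ∈ Icc (0:ℝ) 1, ‖Z u‖ ≤ r := by
    intro u hu
    refine le_trans ?_ hBN
    simp only [hZ]
    rw [norm_smul, Real.norm_of_nonneg (by positivity)]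
    refine mul_le_mul_of_nonneg_left ?_ (by positivity)
    have h1 : (Y : E →L[ℝ] E) + u • W = (1 - u) • (Y : E →L[ℝ] E) + u • A' := by
      rw [hW, smul_sub, sub_smul, one_smul]; abel
    rw [h1]
    refine (norm_add_le _ _).trans ?_
    rw [norm_smul, norm_smul, Real.norm_of_nonneg hu.1, Real.norm_of_nonneg (sub_nonneg.2 hu.2)]
    have h2 : (1 - u) * ‖(Y : E →L[ℝ] E)‖ ≤ 1 * ‖(Y : E →L[ℝ] E)‖ :=
      mul_le_mul_of_nonneg_right (by linarith [hu.1]) (norm_nonneg _)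
    have h3 : u * ‖A'‖ ≤ 1 * ‖A'‖ := mul_le_mul_of_nonneg_right hu.2 (norm_nonneg _)
    rw [hB]; linarith
  have hZd : ∀ u v, Z u - Z v = ((u - v) / N) • W := by
    intro u v
    simp only [hZ]
    rw [← smul_sub, add_sub_add_left_eq_sub, ← sub_smul, smul_smul]
    congr 1
    ring
  obtain ⟨y, hy⟩ := D.exp (Z 0) (hZg 0)
  refine ⟨l * y, ?_, ?_⟩
  · rw [D.ρ_mul, hy, exp_apply_fix, hl]
    rw [hZ0, smul_apply, hY0, smul_zero]
  · have hK : 0 < (C * ‖A p‖ + η) / N := by positivity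
    have hj : JoinLe (D.orb q) ((C * ‖A p‖ + η) / N) (NormedSpace.exp (Z 0) q)
        (NormedSpace.exp (Z 1) q) := by
      refine JoinLe.of_lip hK (fun u => NormedSpace.exp (Z u) q) ?_ ?_
      · intro u hu
        obtain ⟨g', hg'⟩ := D.exp (Z u) (hZg u)
        exact ⟨g', (hg' q).symm⟩
      · intro u hu v hv
        have h1 := hexp (Z u) (Z v) (hZn u hu) (hZn v hv)
        have h2 : NormedSpace.exp (Z u) q - NormedSpace.exp (Z v) q =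
            (NormedSpace.exp (Z u) - NormedSpace.exp (Z v) - (Z u - Z v)) q + (Z u - Z v) q := by
          simp only [sub_apply]; abel
        have h3 : ‖(NormedSpace.exp (Z u) - NormedSpace.exp (Z v) - (Z u - Z v)) q‖ ≤
            η' * ‖Z u - Z v‖ * ‖q‖ :=
          (ContinuousLinearMap.le_opNorm _ _).trans (mul_le_mul_of_nonneg_right h1 (norm_nonneg _))
        have h4 : ‖Z u - Z v‖ ≤ |u - v| / N * B := by
          rw [hZd, norm_smul, Real.norm_eq_abs, abs_div, abs_of_pos hNr]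
          exact mul_le_mul_of_nonneg_left hWn (by positivity)
        have h5 : ‖(Z u - Z v) q‖ ≤ |u - v| / N * (C * ‖A p‖) := by
          rw [hZd, smul_apply, norm_smul, Real.norm_eq_abs, abs_div,
            abs_of_pos hNr]
          exact mul_le_mul_of_nonneg_left hWq (by positivity)
        have h6 : η' * ‖Z u - Z v‖ * ‖q‖ ≤ |u - v| / N * η := by
          calc η' * ‖Z u - Z v‖ * ‖q‖ ≤ η' * (|u - v| / N * B) * ‖q‖ :=
                mul_le_mul_of_nonneg_right (mul_le_mul_of_nonneg_left h4 hη'0.le) (norm_nonneg _)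
            _ = |u - v| / N * (η' * B * ‖q‖) := by ring
            _ ≤ |u - v| / N * η := mul_le_mul_of_nonneg_left hη'B (by positivity)
        calc ‖NormedSpace.exp (Z u) q - NormedSpace.exp (Z v) q‖
            ≤ ‖(NormedSpace.exp (Z u) - NormedSpace.exp (Z v) - (Z u - Z v)) q‖ +
              ‖(Z u - Z v) q‖ := by rw [h2]; exact norm_add_le _ _
          _ ≤ |u - v| / N * η + |u - v| / N * (C * ‖A p‖) := add_le_add (h3.trans h6) h5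
          _ = (C * ‖A p‖ + η) / N * |u - v| := by ring
    have hj2 := hj.map (D.ρ l) (D.orb_inv q l)
    have e0 : D.ρ l (NormedSpace.exp (Z 0) q) = D.ρ (l * y) q := by
      rw [D.ρ_mul, hy]
    have e1 : D.ρ l (NormedSpace.exp (Z 1) q) = D.ρ (h * l) q := by
      rw [D.ρ_mul, hh]
      apply exp_conj_apply
      intro x
      rw [hZ1, smul_apply, map_smul, hA'x, D.ρ_inv_ρ,
        smul_apply]
    rw [e0, e1] at hj2
    exact hj2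

theorem expstep {t C : ℝ} (hC : 0 ≤ C) (P : D.𝔤 →ₗ[ℝ] D.𝔤)
    (hP0 : ∀ A, ev D.𝔤 (D.γ 0) (P A) = 0)
    (hP : ∀ A, ‖ev D.𝔤 (D.γ t) (A - P A)‖ ≤ C * ‖ev D.𝔤 (D.γ 0) A‖)
    (A : E →L[ℝ] E) (hA : A ∈ D.𝔤) (h : Γ) (hh : ∀ x, D.ρ h x = NormedSpace.exp A x)
    (l : Γ) (hl : D.ρ l (D.γ 0) = D.γ 0) {δ : ℝ} (hδ : 0 < δ) :
    ∃ l' : Γ, D.ρ l' (D.γ 0) = D.γ 0 ∧
        JoinLe (D.orb (D.γ t)) (C * ‖A (D.γ 0)‖ + δ) (D.ρ l' (D.γ t))
          (D.ρ (h * l) (D.γ t)) := by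
  obtain ⟨N, hN, hsub⟩ := D.substep hC P hP0 hP A hA hδ
  have hNr : (0:ℝ) < N := by exact_mod_cast hN
  obtain ⟨h₀, hh₀⟩ := D.exp ((1 / (N:ℝ)) • A) (D.𝔤.smul_mem _ hA)
  have hsub' := hsub h₀ hh₀
  set a₀ : ℝ := (C * ‖A (D.γ 0)‖ + δ) / N with ha₀
  have hiter : ∀ j : ℕ, ∀ l : Γ, D.ρ l (D.γ 0) = D.γ 0 → ∃ l' : Γ, D.ρ l' (D.γ 0) = D.γ 0 ∧
      JoinLe (D.orb (D.γ t)) ((j : ℝ) * a₀) (D.ρ l' (D.γ t)) (D.ρ (h₀ ^ j * l) (D.γ t)) := by
    intro j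
    induction j with
    | zero =>
      intro l hl
      refine ⟨l, hl, ?_⟩
      rw [pow_zero, one_mul, Nat.cast_zero, zero_mul]
      exact JoinLe.refl ⟨l, rfl⟩
    | succ j ih =>
      intro l hl
      obtain ⟨l₁, hl₁, hJ₁⟩ := hsub' l hl
      obtain ⟨l', hl', hJ'⟩ := ih l₁ hl₁
      refine ⟨l', hl', ?_⟩
      have h1 := hJ'.trans ((D.ρ_mul (h₀ ^ j) l₁ (D.γ t)) ▸ hJ₁.map (D.ρ (h₀ ^ j)) (D.orb_inv _ _))
      rw [← D.ρ_mul, ← mul_assoc, ← pow_succ] at h1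
      have h2 : ((j + 1 : ℕ) : ℝ) * a₀ = (j : ℝ) * a₀ + a₀ := by push_cast; ring
      rw [h2]
      exact h1
  obtain ⟨l', hl', hJ⟩ := hiter N l hl
  refine ⟨l', hl', ?_⟩
  have hpow : ∀ (n : ℕ) (x : E), D.ρ (h₀ ^ n) x = (NormedSpace.exp ((1 / (N:ℝ)) • A) ^ n) x := by
    intro n
    induction n with
    | zero => intro x; rw [pow_zero, pow_zero, D.ρ_one]; rfl
    | succ n ih => intro x; rw [pow_succ, D.ρ_mul, ih, hh₀, pow_succ]; rfl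
  have e1 : D.ρ (h₀ ^ N * l) (D.γ t) = D.ρ (h * l) (D.γ t) := by
    rw [D.ρ_mul, hpow, ← exp_nat_smul, smul_smul, mul_one_div_cancel hNr.ne', one_smul, D.ρ_mul, hh]
  have e2 : (N : ℝ) * a₀ = C * ‖A (D.γ 0)‖ + δ := by
    rw [ha₀]; field_simp
  rw [e1, e2] at hJ
  exact hJ

theorem stmtX : D.StmtX := by
  intro t C hC P hP0 hP g a hg
  induction hg with
  | one =>
    intro l hl δ hδ
    refine ⟨l, hl, ?_⟩
    rw [one_mul]
    exact (JoinLe.refl (S := D.orb (D.γ t)) (x := D.ρ l (D.γ t)) ⟨l, rfl⟩).mono (by rw [mul_zero, zero_add]; exact hδ.le)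
  | step g h a A hA hh hg ih =>
    intro l hl δ hδ
    obtain ⟨l₁, hl₁, hJ⟩ := D.expstep hC P hP0 hP A hA h hh l hl (half_pos hδ)
    obtain ⟨l', hl', hJ'⟩ := ih l₁ hl₁ (δ / 2) (half_pos hδ)
    refine ⟨l', hl', ?_⟩
    have h1 := hJ.map (D.ρ g) (D.orb_inv _ _)
    rw [← D.ρ_mul, ← D.ρ_mul, ← mul_assoc] at h1
    have h2 := hJ'.trans h1
    exact h2.mono (by linarith)

end End

end

end Pool.Agent.Helper54.SO
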