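import Pool.Agent.Helper54.SO.L1
import Pool.Agent.Helper54.SO.L2
import Pool.Agent.Helper54.SO.X

/-! Project SO: piece L3, from paths in the tube to broken paths in the end orbit. -/

namespace Pool.Agent.Helper54.SO

open Filter Topology Set
open scoped ContDiff

noncomputable section

variable {E : Type*} [NormedAddCommGroup E] [InnerProductSpace ℝ E] [FiniteDimensional ℝ E]
  {Γ : Type*} [Group Γ] {k T : ℝ}

theorem exp_neg_apply (A : E →L[ℝ] E) (x : E) :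
    NormedSpace.exp A (NormedSpace.exp (-A) x) = x := by
  have : CompleteSpace E := FiniteDimensional.complete ℝ E
  let _ : NormedAlgebra ℚ (E →L[ℝ] E) := NormedAlgebra.restrictScalars ℚ ℝ _
  have h1 : NormedSpace.exp (A + -A) = NormedSpace.exp A * NormedSpace.exp (-A) :=
    NormedSpace.exp_add_of_commute (Commute.refl A).neg_right
  rw [add_neg_cancel, NormedSpace.exp_zero] at h1
  have h2 := DFunLike.congr_fun h1 x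
  exact h2.symm

namespace End

variable (D : End E Γ k T)

theorem ρ_inv_apply (g : Γ) (x : E) : D.ρ g⁻¹ (D.ρ g x) = x := by
  rw [← D.ρ_mul, inv_mul_cancel, D.ρ_one]

theorem fix_inv {l : Γ} (hl : D.ρ l (D.γ 0) = D.γ 0) : D.ρ l⁻¹ (D.γ 0) = D.γ 0 := by
  have h1 := D.ρ_inv_apply l (D.γ 0)
  rwa [hl] at h1

theorem broken_conj {g : Γ} {a : ℝ} (hg : D.Broken g a) {l e : Γ} (hl : D.ρ l (D.γ 0) = D.γ 0)
    {A : E →L[ℝ] E} (hA : A ∈ D.𝔤) (he : ∀ x, D.ρ e x = NormedSpace.exp A x) :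
    D.Broken (g * (l⁻¹ * e * l)) (a + ‖A (D.γ 0)‖) := by
  obtain ⟨B, hB, hBx⟩ := D.ad l A hA
  have h1 : ‖B (D.γ 0)‖ = ‖A (D.γ 0)‖ := by
    rw [hBx, hl, LinearIsometryEquiv.norm_map]
  rw [← h1]
  refine Broken.step g _ a B hB (fun x => ?_) hg
  have h2 : D.ρ l (NormedSpace.exp B x) = NormedSpace.exp A (D.ρ l x) :=
    exp_conj_apply (D.ρ l) (fun z => by rw [hBx, D.ρ_inv_ρ]) x
  rw [D.ρ_mul, D.ρ_mul, he, ← h2, D.ρ_inv_apply]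

theorem step_right {h l e h' : Γ} {a : ℝ} (hB : D.Broken (h * l) a)
    (hl : D.ρ l (D.γ 0) = D.γ 0) {A : E →L[ℝ] E} (hA : A ∈ D.𝔤)
    (he : ∀ x, D.ρ e x = NormedSpace.exp A x) (hh' : D.ρ h' (D.γ 0) = D.ρ (h * e) (D.γ 0)) :
    ∃ l', D.ρ l' (D.γ 0) = D.γ 0 ∧ D.Broken (h' * l') (a + ‖A (D.γ 0)‖) := by
  have h1 := D.broken_conj hB hl hA he
  set l₄ := (h * e)⁻¹ * h' with hl₄
  have h2 : D.ρ l₄ (D.γ 0) = D.γ 0 := by
    rw [hl₄, D.ρ_mul, hh', D.ρ_inv_apply]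
  refine ⟨l₄⁻¹ * l, ?_, ?_⟩
  · rw [D.ρ_mul, hl, D.fix_inv h2]
  · have h3 : h' * (l₄⁻¹ * l) = h * l * (l⁻¹ * e * l) := by
      rw [hl₄]; group
    rw [h3]
    exact h1

theorem step_left {h l₁ e h₁ : Γ} {a : ℝ} (hB : D.Broken (h₁ * l₁) a)
    (hl₁ : D.ρ l₁ (D.γ 0) = D.γ 0) {A : E →L[ℝ] E} (hA : A ∈ D.𝔤)
    (he : ∀ x, D.ρ e x = NormedSpace.exp A x) (hh : D.ρ h₁ (D.γ 0) = D.ρ (h * e) (D.γ 0)) :
    ∃ l', D.ρ l' (D.γ 0) = D.γ 0 ∧ D.Broken (h * l') (a + ‖A (D.γ 0)‖) := by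
  obtain ⟨e', he'⟩ := D.exp (-A) (D.𝔤.neg_mem hA)
  set m := (h * e)⁻¹ * (h₁ * l₁) with hm
  have h2 : D.ρ m (D.γ 0) = D.γ 0 := by
    rw [hm, D.ρ_mul, D.ρ_mul h₁ l₁, hl₁, hh, D.ρ_inv_apply]
  have h1 := D.broken_conj hB h2 (D.𝔤.neg_mem hA) he'
  refine ⟨e * e' * m, ?_, ?_⟩
  · rw [D.ρ_mul, h2, D.ρ_mul, he', he, exp_neg_apply]
  · have h3 : h * (e * e' * m) = h₁ * l₁ * (m⁻¹ * e' * m) := by
      rw [hm]; group
    have h4 : ‖(-A) (D.γ 0)‖ = ‖A (D.γ 0)‖ := by rw [neg_apply, norm_neg]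
    rw [h3, ← h4]
    exact h1

theorem norm_γ_sub_le {s : ℝ} (hs : s ∈ Ico 0 T) : ‖D.γ s - D.γ 0‖ ≤ s := by
  have hT : 0 < T := hs.1.trans_lt hs.2
  have h1 := (convex_Icc (0:ℝ) s).norm_image_sub_le_of_norm_hasDerivWithin_le
    (f := D.γ) (f' := deriv D.γ) (C := 1) (x := 0) (y := s)
    (fun x hx => (D.hasDerivAt_γ ⟨by linarith [hx.1], hx.2.trans_lt hs.2⟩).hasDerivWithinAt)
    (fun x hx => (D.unit x ⟨by linarith [hx.1], hx.2.trans_lt hs.2⟩).le)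
    ⟨le_rfl, hs.1⟩ ⟨hs.1, le_rfl⟩
  rwa [sub_zero, one_mul, Real.norm_of_nonneg hs.1] at h1

end End

/-- Local estimate. -/
theorem Tube.local_est (D : Tube E Γ k T) (hk : 0 < k) (h : Γ) {s : ℝ} (hs : s ∈ Ico 0 T) :
    ∃ ε > 0, ∀ y' ∈ D.M, ‖y' - D.ρ h (D.γ s)‖ < ε → ∃ A ∈ D.𝔤, ∃ (e h' : Γ) (s' : ℝ),
      (∀ x, D.ρ e x = NormedSpace.exp A x) ∧ s' ∈ Ico 0 T ∧ y' = D.ρ h' (D.γ s') ∧
      D.ρ h' (D.γ 0) = D.ρ (h * e) (D.γ 0) ∧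
      (s ≤ T / 2 → ‖A (D.γ 0)‖ ≤ 6 * Real.cosh (k * T) * ‖y' - D.ρ h (D.γ s)‖) ∧
      |s' - s| ≤ 3 * ‖y' - D.ρ h (D.γ s)‖ := by
  have hT : 0 < T := hs.1.trans_lt hs.2
  have hcosh : 1 ≤ Real.cosh (k * T) := Real.one_le_cosh _
  have htr : ∀ y', ‖D.ρ h⁻¹ y' - D.γ s‖ = ‖y' - D.ρ h (D.γ s)‖ := by
    intro y'
    have h1 : D.ρ h⁻¹ y' - D.γ s = D.ρ h⁻¹ (y' - D.ρ h (D.γ s)) := by
      rw [map_sub, D.toEnd.ρ_inv_apply]
    rw [h1, LinearIsometryEquiv.norm_map]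
  rcases eq_or_lt_of_le hs.1 with h0 | h0
  · -- s = 0
    subst h0
    obtain ⟨r₁, hr₁, hnear⟩ := D.near
    obtain ⟨r₂, hr₂, horb⟩ := D.orbit
    refine ⟨min r₁ (r₂ / 3), lt_min hr₁ (by positivity), fun y' hy' hd => ?_⟩
    set d := ‖y' - D.ρ h (D.γ 0)‖ with hd'
    have hy'' : D.ρ h⁻¹ y' ∈ D.M := D.inv _ _ hy'
    obtain ⟨g', s', hs', hy2⟩ := D.tube _ hy''
    have hn : ‖D.ρ g' (D.γ s') - D.γ 0‖ = d := by rw [← hy2]; exact htr y'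
    have h1 : s' ≤ 2 * d := by
      rw [← hn]
      exact hnear g' s' hs' (by rw [hn]; exact hd.trans_le (min_le_left _ _))
    have h2 : ‖D.ρ g' (D.γ 0) - D.γ 0‖ ≤ 3 * d := by
      have h3 : ‖D.ρ g' (D.γ s') - D.ρ g' (D.γ 0)‖ ≤ s' := by
        rw [← map_sub, LinearIsometryEquiv.norm_map]
        exact D.toEnd.norm_γ_sub_le hs'
      have h4 : ‖D.ρ g' (D.γ 0) - D.γ 0‖ ≤ ‖D.ρ g' (D.γ s') - D.γ 0‖ +
          ‖D.ρ g' (D.γ s') - D.ρ g' (D.γ 0)‖ := by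
        have := norm_sub_le (D.ρ g' (D.γ s') - D.γ 0) (D.ρ g' (D.γ s') - D.ρ g' (D.γ 0))
        simpa using this
      linarith
    have h5 : ‖D.ρ g' (D.γ 0) - D.γ 0‖ < r₂ := by
      have := hd.trans_le (min_le_right _ _)
      linarith
    obtain ⟨A, hA, hA1, hA2⟩ := horb g' h5
    obtain ⟨e, he⟩ := D.exp A hA
    refine ⟨A, hA, e, h * g', s', he, hs', ?_, ?_, fun _ => ?_, ?_⟩
    · rw [D.toEnd.ρ_mul, ← hy2, D.toEnd.ρ_inv_ρ]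
    · rw [D.toEnd.ρ_mul, D.toEnd.ρ_mul, he, hA1]
    · have hd0 : 0 ≤ d := norm_nonneg _
      have h6 : 6 * d ≤ 6 * Real.cosh (k * T) * d := by nlinarith
      linarith
    · rw [sub_zero, abs_of_nonneg hs'.1]
      have hd0 : 0 ≤ d := norm_nonneg _
      linarith
  · obtain ⟨ε, hε, hloc⟩ := D.loc (s := s) ⟨h0, hs.2⟩
    refine ⟨ε, hε, fun y' hy' hd => ?_⟩
    set d := ‖y' - D.ρ h (D.γ s)‖ with hd'
    have hd0 : 0 ≤ d := norm_nonneg _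
    have hy'' : D.ρ h⁻¹ y' ∈ D.M := D.inv _ _ hy'
    obtain ⟨A, hA, τ, hτ, hyA, hA1, hτ1⟩ := hloc _ hy'' (by rw [htr]; exact hd)
    rw [htr, ← hd'] at hA1 hτ1
    obtain ⟨e, he⟩ := D.exp A hA
    refine ⟨A, hA, e, h * e, s + τ, he, ⟨hτ.1.le, hτ.2⟩, ?_, rfl, fun hs2 => ?_, ?_⟩
    · rw [D.toEnd.ρ_mul, he, ← hyA, D.toEnd.ρ_inv_ρ]
    · have h1 := (D.toEnd.toJF hT).foot hk (t := s) ⟨h0, hs2⟩ ⟨A, hA⟩
      have h2 : ‖A (D.γ 0)‖ ≤ 2 * Real.cosh (k * T) * ‖A (D.γ s)‖ := h1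
      have h3 : 2 * Real.cosh (k * T) * ‖A (D.γ s)‖ ≤ 2 * Real.cosh (k * T) * (2 * d) :=
        mul_le_mul_of_nonneg_left hA1 (by positivity)
      nlinarith
    · rw [add_sub_cancel_left]; linarith

/-- A path of length `b` in the tube from `p` to `g p` gives a broken path of length
`6 cosh (k T) b` in the orbit of `p`. -/
theorem Tube.path (D : Tube E Γ k T) (hk : 0 < k) {b : ℝ} (hT : 0 < T) (hb : 6 * b ≤ T) {g : Γ}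
    (hJ : JoinLe D.M b (D.γ 0) (D.ρ g (D.γ 0))) :
    ∃ (l : Γ) (a : ℝ), D.ρ l (D.γ 0) = D.γ 0 ∧ D.Broken (g * l) a ∧
      a ≤ 6 * Real.cosh (k * T) * b := by
  obtain ⟨hb0, c, hc, hcM, hc0, hcb⟩ := hJ
  set K : ℝ := 6 * Real.cosh (k * T) with hK
  have hlip : ∀ u ∈ Icc 0 b, ∀ v ∈ Icc 0 b, ‖c u - c v‖ ≤ |u - v| := by
    intro u hu v hv
    have := hc.dist_le_mul u hu v hv
    rwa [NNReal.coe_one, one_mul, dist_eq_norm, Real.dist_eq] at this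
  set P : ℝ → Prop := fun u => ∃ (h : Γ) (s : ℝ) (l : Γ) (a : ℝ), s ∈ Ico 0 T ∧
    c u = D.ρ h (D.γ s) ∧ D.ρ l (D.γ 0) = D.γ 0 ∧ D.Broken (h * l) a ∧ a ≤ K * u ∧ s ≤ 3 * u with hP
  have hP0 : P 0 := by
    refine ⟨1, 0, 1, 0, ⟨le_rfl, hT⟩, ?_, D.toEnd.ρ_one _, ?_, by simp, by simp⟩
    · rw [hc0, D.toEnd.ρ_one]
    · rw [one_mul]; exact End.Broken.one
  set S : Set ℝ := {u | u ∈ Icc 0 b ∧ P u} with hS
  have hS0 : (0:ℝ) ∈ S := ⟨⟨le_rfl, hb0⟩, hP0⟩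
  have hSb : BddAbove S := ⟨b, fun u hu => hu.1.2⟩
  set w := sSup S with hw
  have hw0 : 0 ≤ w := le_csSup hSb hS0
  have hwb : w ≤ b := csSup_le ⟨0, hS0⟩ fun u hu => hu.1.2
  have hwI : w ∈ Icc 0 b := ⟨hw0, hwb⟩
  have hwP : P w := by
    obtain ⟨h, s, hs, hcw⟩ := D.tube _ (hcM w hwI)
    obtain ⟨ε, hε, hle⟩ := D.local_est hk h hs
    obtain ⟨u₁, hu₁S, hu₁⟩ := exists_lt_of_lt_csSup ⟨0, hS0⟩ (show w - ε < w by linarith)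
    have hu₁w : u₁ ≤ w := le_csSup hSb hu₁S
    obtain ⟨hu₁I, h₁, s₁, l₁, a₁, hs₁, hcu₁, hl₁, hB₁, ha₁, hs₁u⟩ := hu₁S
    have hd : ‖c u₁ - D.ρ h (D.γ s)‖ ≤ w - u₁ := by
      rw [← hcw]
      have := hlip u₁ hu₁I w hwI
      rwa [abs_of_nonpos (by linarith), neg_sub] at this
    obtain ⟨A, hA, e, h', s', he, hs', hy', hh', hAp, hss⟩ := hle _ (hcM u₁ hu₁I)
      (by linarith)
    rw [hcu₁] at hy'
    obtain ⟨hf1, hf2⟩ := D.foot _ _ _ hs₁ _ hs' hy'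
    have hsle : s ≤ 3 * w := by
      have h1 := (abs_le.1 hss).1
      have h2 : 3 * ‖c u₁ - D.ρ h (D.γ s)‖ ≤ 3 * (w - u₁) := by linarith
      linarith
    have hAp' := hAp (by linarith)
    have hh₁ : D.ρ h₁ (D.γ 0) = D.ρ (h * e) (D.γ 0) := by rw [hf2, hh']
    obtain ⟨l', hl', hB'⟩ := D.toEnd.step_left hB₁ hl₁ hA he hh₁
    refine ⟨h, s, l', _, hs, hcw, hl', hB', ?_, hsle⟩
    have hK0 : 0 ≤ K := by have := (Real.cosh_pos (k * T)).le; positivity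
    have h3 : K * ‖c u₁ - D.ρ h (D.γ s)‖ ≤ K * (w - u₁) := mul_le_mul_of_nonneg_left hd hK0
    have h4 : ‖A (D.γ 0)‖ ≤ K * (w - u₁) := hAp'.trans h3
    nlinarith
  have hwb' : w = b := by
    by_contra hne
    have hlt : w < b := lt_of_le_of_ne hwb hne
    obtain ⟨h, s, l, a, hs, hcw, hl, hB, ha, hsw⟩ := hwP
    obtain ⟨ε, hε, hle⟩ := D.local_est hk h hs
    set u₂ := min b (w + ε / 2) with hu₂
    have hu₂w : w < u₂ := lt_min hlt (by linarith)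
    have hu₂b : u₂ ≤ b := min_le_left _ _
    have hu₂ε : u₂ ≤ w + ε / 2 := min_le_right _ _
    have hu₂I : u₂ ∈ Icc 0 b := ⟨by linarith, hu₂b⟩
    have hd : ‖c u₂ - D.ρ h (D.γ s)‖ ≤ u₂ - w := by
      rw [← hcw]
      have := hlip u₂ hu₂I w hwI
      rwa [abs_of_nonneg (by linarith)] at this
    obtain ⟨A, hA, e, h', s', he, hs', hy', hh', hAp, hss⟩ := hle _ (hcM u₂ hu₂I)
      (by linarith)
    have hAp' := hAp (by linarith)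
    obtain ⟨l', hl', hB'⟩ := D.toEnd.step_right hB hl hA he hh'
    have hK0 : 0 ≤ K := by have := (Real.cosh_pos (k * T)).le; positivity
    have h3 : K * ‖c u₂ - D.ρ h (D.γ s)‖ ≤ K * (u₂ - w) := mul_le_mul_of_nonneg_left hd hK0
    have h4 : ‖A (D.γ 0)‖ ≤ K * (u₂ - w) := hAp'.trans h3
    have hPu : P u₂ := by
      refine ⟨h', s', l', _, hs', hy', hl', hB', ?_, ?_⟩
      · nlinarith
      · have h1 := (abs_le.1 hss).2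
        linarith
    have := le_csSup hSb (show u₂ ∈ S from ⟨hu₂I, hPu⟩)
    linarith
  rw [hwb'] at hwP
  obtain ⟨h, s, l, a, hs, hcw, hl, hB, ha, hsw⟩ := hwP
  rw [hcb] at hcw
  obtain ⟨-, hf⟩ := D.foot g h 0 ⟨le_rfl, hT⟩ s hs hcw
  set l₅ := g⁻¹ * h with hl₅
  have hl₅p : D.ρ l₅ (D.γ 0) = D.γ 0 := by
    rw [hl₅, D.toEnd.ρ_mul, ← hf, D.toEnd.ρ_inv_apply]
  refine ⟨l₅ * l, a, ?_, ?_, ha⟩
  · rw [D.toEnd.ρ_mul, hl, hl₅p]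
  · have h3 : g * (l₅ * l) = h * l := by rw [hl₅]; group
    rw [h3]; exact hB

end

end Pool.Agent.Helper54.SO
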