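import Pool.Agent.Helper54.SO.JF

/-! Project SO: piece S, lower semicontinuity. -/

namespace Pool.Agent.Helper54.SO

open Filter Topology Set

noncomputable section

section
variable {V E : Type*} [NormedAddCommGroup V] [NormedSpace ℝ V] [FiniteDimensional ℝ V]
    [NormedAddCommGroup E] [InnerProductSpace ℝ E] [FiniteDimensional ℝ E] {k T : ℝ}

/-- bounded sections of a linear map -/
theorem exists_section (W : Submodule ℝ V) (L : V →L[ℝ] E) :
    ∃ c > 0, ∀ A ∈ W, ∃ B ∈ W, L B = L A ∧ c * ‖B‖ ≤ ‖L B‖ := by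
  set f : W →ₗ[ℝ] E := L.toLinearMap.comp W.subtype with hf
  obtain ⟨σ, hσ⟩ := f.rangeRestrict.exists_rightInverse_of_surjective (LinearMap.range_rangeRestrict f)
  set σ' : LinearMap.range f →L[ℝ] W := LinearMap.toContinuousLinearMap σ with hσ'
  refine ⟨1 / (‖σ'‖ + 1), by positivity, fun A hA => ?_⟩
  set y : LinearMap.range f := ⟨L A, ⟨⟨A, hA⟩, rfl⟩⟩ with hy
  have h1 : f (σ y) = L A := by
    have := LinearMap.congr_fun hσ y
    have h2 := congrArg Subtype.val this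
    exact h2
  refine ⟨(σ y : V), (σ y).2, h1, ?_⟩
  have h3 : ‖(σ y : V)‖ ≤ ‖σ'‖ * ‖L A‖ := by
    have := σ'.le_opNorm y
    exact this
  have h4 : L (σ y : V) = L A := h1
  rw [h4, div_mul_eq_mul_div, one_mul, div_le_iff₀ (by positivity)]
  nlinarith [norm_nonneg (L A), norm_nonneg σ']

theorem JF.stmtS (D : JF V E k T) : D.StmtS := by
  intro ξ hξ t ht δ hδ0 hδ1
  have hT : 0 < T := ht.1.trans_lt ht.2
  have htT : t ∈ Ioo (-T) T := ⟨by linarith [ht.1], ht.2⟩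
  have h0T : (0:ℝ) ∈ Ioo (-T) T := ⟨by linarith, hT⟩
  rcases eq_or_lt_of_le ht.1 with h0 | h0
  · -- t = 0
    subst h0
    obtain ⟨c0, hc0, hsec0⟩ := exists_section (⊤ : Submodule ℝ V) (D.J 0)
    obtain ⟨c1, hc1, hsec1⟩ := exists_section (LinearMap.ker (D.J 0).toLinearMap) (D.J1 0)
    have hcont : ∀ᶠ s in 𝓝 (0:ℝ), ‖D.J s - D.J 0‖ < c0 * δ / 2 := by
      have h1 := (D.d0 0 h0T).continuousAt
      have h2 : Tendsto (fun s => ‖D.J s - D.J 0‖) (𝓝 0) (𝓝 0) := by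
        have := (h1.sub (continuousAt_const (y := D.J 0))).norm
        simpa [ContinuousAt] using this
      exact h2.eventually (gt_mem_nhds (by positivity))
    have hder : ∀ᶠ s in 𝓝 (0:ℝ), ‖D.J s - D.J 0 - s • D.J1 0‖ ≤ c1 * δ / 4 * ‖s‖ := by
      have h1 := (D.d0 0 h0T).isLittleO
      have h2 := h1.def (show 0 < c1 * δ / 4 by positivity)
      filter_upwards [h2] with s hs
      simpa using hs
    have hcd := hcont.and hder
    filter_upwards [nhdsWithin_le_nhds hcd, self_mem_nhdsWithin] with s hs hsI A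
    obtain ⟨hs1, hs2⟩ := hs
    rcases eq_or_lt_of_le hsI.1 with hs0 | hs0
    · rw [← hs0]
      exact ⟨A, rfl, by nlinarith [norm_nonneg (D.J 0 A)]⟩
    have hsT : s ∈ Ioo (-T) T := ⟨by linarith, hsI.2⟩
    obtain ⟨B, -, hB1, hB2⟩ := hsec0 A trivial
    have hY : A - B ∈ LinearMap.ker (D.J 0).toLinearMap := by
      rw [LinearMap.mem_ker]
      change D.J 0 (A - B) = 0
      rw [map_sub, hB1, sub_self]
    obtain ⟨Y, hYk, hY1, hY2⟩ := hsec1 _ hY
    have hJY : D.J 0 Y = 0 := hYk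
    have hdiff : ∀ r ∈ Ioo (-T) T, D.J r (A - B - Y) = 0 := by
      apply D.ker0
      · have hY' : D.J 0 (A - B) = 0 := hY
        rw [map_sub, hY', hJY, sub_zero]
      · rw [map_sub, hY1, sub_self]
    have hJsA : D.J s A = D.J s Y + D.J s B := by
      have := hdiff s hsT
      rw [map_sub, map_sub] at this
      have h2 : D.J s A = D.J s A - D.J s B - D.J s Y + (D.J s Y + D.J s B) := by abel
      rw [h2, this, zero_add]
    refine ⟨B, ?_, ?_⟩
    · have := hξ (A - B) hY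
      rw [map_sub] at this
      linarith
    set a : ℝ := ‖D.J s Y‖ with ha
    set b : ℝ := ‖D.J 0 B‖ with hb
    have hb0 : 0 ≤ b := norm_nonneg _
    have ha0 : 0 ≤ a := norm_nonneg _
    -- estimate on Y
    have e1 : ‖D.J s Y - s • D.J1 0 Y‖ ≤ c1 * δ / 4 * s * ‖Y‖ := by
      have h1 : D.J s Y - s • D.J1 0 Y = (D.J s - D.J 0 - s • D.J1 0) Y := by
        simp [hJY]
      rw [h1]
      have h2 := (D.J s - D.J 0 - s • D.J1 0).le_opNorm Y
      rw [Real.norm_of_nonneg hs0.le] at hs2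
      exact h2.trans (mul_le_mul_of_nonneg_right hs2 (norm_nonneg _))
    have e2 : s * (c1 * ‖Y‖) ≤ a + c1 * δ / 4 * s * ‖Y‖ := by
      have h1 : ‖s • D.J1 0 Y‖ ≤ ‖D.J s Y‖ + ‖D.J s Y - s • D.J1 0 Y‖ := by
        have := norm_sub_le (D.J s Y) (D.J s Y - s • D.J1 0 Y)
        simpa using this
      rw [norm_smul, Real.norm_of_nonneg hs0.le] at h1
      have h2 : s * (c1 * ‖Y‖) ≤ s * ‖D.J1 0 Y‖ := mul_le_mul_of_nonneg_left hY2 hs0.le
      linarith
    have e3 : c1 * δ / 4 * s * ‖Y‖ ≤ δ / 2 * a := by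
      -- s c1 ‖Y‖ (1 - δ/4) ≤ a
      have h1 : s * (c1 * ‖Y‖) * (1 - δ / 4) ≤ a := by nlinarith
      have h2 : 0 ≤ s * (c1 * ‖Y‖) := by positivity
      set w := s * (c1 * ‖Y‖) with hw
      have h3 : w * (3 / 4) ≤ a := by nlinarith
      have h4 : δ * (w * (3 / 4)) ≤ δ * a := mul_le_mul_of_nonneg_left h3 hδ0.le
      have h5 : c1 * δ / 4 * s * ‖Y‖ = δ / 4 * w := by rw [hw]; ring
      rw [h5]
      have h6 : 0 ≤ δ * a := mul_nonneg hδ0.le ha0
      linarith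
    have e4 : |inner ℝ (D.J s Y) (D.J 0 B)| ≤ δ / 2 * a * b := by
      have h1 : inner ℝ (D.J1 0 Y) (D.J 0 B) = 0 := by
        rw [D.symm 0 h0T, hJY, inner_zero_left]
      have h2 : inner ℝ (D.J s Y) (D.J 0 B) = inner ℝ (D.J s Y - s • D.J1 0 Y) (D.J 0 B) := by
        rw [inner_sub_left, inner_smul_left, h1, mul_zero, sub_zero]
      rw [h2]
      calc |inner ℝ (D.J s Y - s • D.J1 0 Y) (D.J 0 B)| ≤ ‖D.J s Y - s • D.J1 0 Y‖ * b :=
            abs_real_inner_le_norm _ _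
        _ ≤ (δ / 2 * a) * b := mul_le_mul_of_nonneg_right (e1.trans e3) hb0
    have e5 : (1 - δ / 2) * b ≤ ‖D.J s Y + D.J 0 B‖ := by
      apply le_of_sq_le_sq _ (norm_nonneg _)
      have h1 : ‖D.J s Y + D.J 0 B‖ ^ 2 = a ^ 2 + 2 * inner ℝ (D.J s Y) (D.J 0 B) + b ^ 2 :=
        norm_add_sq_real _ _
      have h2 := (abs_le.1 e4).1
      rw [h1]
      nlinarith [sq_nonneg (a - b), mul_nonneg ha0 hb0, mul_nonneg hδ0.le hδ0.le, sq_nonneg a,
        mul_nonneg hδ0.le (sq_nonneg (a - b)), mul_nonneg hδ0.le (sq_nonneg a),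
        mul_nonneg hδ0.le (sq_nonneg b), mul_nonneg (mul_nonneg hδ0.le (sub_nonneg.2 hδ1.le)) (sq_nonneg b)]
    have e6 : ‖D.J s B - D.J 0 B‖ ≤ δ / 2 * b := by
      have h1 : D.J s B - D.J 0 B = (D.J s - D.J 0) B := by simp
      rw [h1]
      have h2 := (D.J s - D.J 0).le_opNorm B
      have h3 : ‖D.J s - D.J 0‖ * ‖B‖ ≤ c0 * δ / 2 * ‖B‖ :=
        mul_le_mul_of_nonneg_right hs1.le (norm_nonneg _)
      nlinarith
    have e7 : ‖D.J s Y + D.J 0 B‖ ≤ ‖D.J s A‖ + ‖D.J s B - D.J 0 B‖ := by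
      have h1 : D.J s Y + D.J 0 B = D.J s A - (D.J s B - D.J 0 B) := by rw [hJsA]; abel
      rw [h1]; exact norm_sub_le _ _
    linarith
  · -- t > 0
    obtain ⟨c, hc, hsec⟩ := exists_section (⊤ : Submodule ℝ V) (D.J t)
    have hcont : ∀ᶠ s in 𝓝 t, ‖D.J s - D.J t‖ < c * δ := by
      have h1 := (D.d0 t htT).continuousAt
      have h2 : Tendsto (fun s => ‖D.J s - D.J t‖) (𝓝 t) (𝓝 0) := by
        have := (h1.sub (continuousAt_const (y := D.J t))).norm
        simpa [ContinuousAt] using this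
      exact h2.eventually (gt_mem_nhds (by positivity))
    have hin : ∀ᶠ s in 𝓝 t, s ∈ Ioo (-T) T := Ioo_mem_nhds htT.1 htT.2
    filter_upwards [nhdsWithin_le_nhds (hcont.and hin)] with s hs A
    obtain ⟨hs1, hs2⟩ := hs
    obtain ⟨B, -, hB1, hB2⟩ := hsec A trivial
    have hdiff : ∀ r ∈ Ioo (-T) T, D.J r (A - B) = 0 := by
      apply D.ker t ⟨h0, ht.2⟩
      rw [map_sub, hB1, sub_self]
    refine ⟨B, ?_, ?_⟩
    · have := hξ (A - B) (hdiff 0 h0T)
      rw [map_sub] at this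
      linarith
    have h1 : D.J s A = D.J s B := by
      have := hdiff s hs2
      rw [map_sub] at this
      exact sub_eq_zero.1 this
    rw [h1]
    have h2 : ‖D.J t B‖ ≤ ‖D.J s B‖ + ‖(D.J s - D.J t) B‖ := by
      have := norm_sub_le (D.J s B) ((D.J s - D.J t) B)
      simpa using this
    have h3 := (D.J s - D.J t).le_opNorm B
    have h4 : ‖D.J s - D.J t‖ * ‖B‖ ≤ c * δ * ‖B‖ :=
      mul_le_mul_of_nonneg_right hs1.le (norm_nonneg _)
    nlinarith

end

end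

end Pool.Agent.Helper54.SO
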