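import Pool.Agent.Helper54.SO.JF

/-! Project SO: piece T, the trace argument. -/

namespace Pool.Agent.Helper54.SO

open Filter Topology Set

noncomputable section

section
variable {V E : Type*} [NormedAddCommGroup V] [NormedSpace ℝ V] [FiniteDimensional ℝ V]
    [NormedAddCommGroup E] [InnerProductSpace ℝ E] [FiniteDimensional ℝ E] {k T : ℝ}

theorem JF.stmtT (D : JF V E k T) (hT : 0 < T) : D.StmtT := by
  intro c hc hlow A
  have h0T : (0:ℝ) ∈ Ioo (-T) T := ⟨by linarith, hT⟩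
  set R := LinearMap.range (D.J 0).toLinearMap with hR
  set f : V →ₗ[ℝ] R := (D.J 0).toLinearMap.rangeRestrict with hf
  obtain ⟨σ, hσ⟩ := f.exists_rightInverse_of_surjective (LinearMap.range_rangeRestrict _)
  have hfσ : ∀ r, f (σ r) = r := fun r => LinearMap.congr_fun hσ r
  have hJσ : ∀ r : R, D.J 0 (σ r) = (r : E) := fun r => congrArg Subtype.val (hfσ r)
  have hfA : ∀ B, ((f B : R) : E) = D.J 0 B := fun B => rfl
  set S : R →ₗ[ℝ] R := R.orthogonalProjectionOnto.toLinearMap ∘ₗ (D.J1 0).toLinearMap ∘ₗ σ with hS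
  have key : ∀ A B, inner ℝ (S (f A)) (f B) = inner ℝ (D.J1 0 A) (D.J 0 B) := by
    intro A B
    have h1 : inner ℝ (S (f A)) (f B) = inner ℝ (D.J1 0 (σ (f A))) ((f B : R) : E) :=
      Submodule.inner_orthogonalProjectionOnto_eq_of_mem_right (f B) (D.J1 0 (σ (f A)))
    rw [h1, hfA, D.symm 0 h0T, hJσ, hfA, ← D.symm 0 h0T]
  obtain ⟨φ, hφ1, hφ2⟩ := D.sym0
  set m := Module.finrank ℝ R with hm
  -- trace zero
  have htr : LinearMap.trace ℝ R S = 0 := by
    set b := stdOrthonormalBasis ℝ R with hb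
    have h1 := LinearMap.trace_eq_sum_inner S b
    set v : Fin m → R := fun i => f (φ (σ (b i))) with hv
    have hvo : Orthonormal ℝ v := by
      rw [orthonormal_iff_ite]
      intro i j
      have h2 : inner ℝ (v i) (v j) = inner ℝ (b i) (b j) := by
        change inner ℝ (D.J 0 (φ (σ (b i)))) (D.J 0 (φ (σ (b j)))) = inner ℝ ((b i : R) : E) (b j : R)
        rw [hφ1, hJσ, hJσ]
      rw [h2]
      exact orthonormal_iff_ite.1 b.orthonormal i j
    obtain ⟨b', hb'⟩ := Orthonormal.exists_orthonormalBasis_extension_of_card_eq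
      (𝕜 := ℝ) (ι := Fin m) (v := v) (s := Set.univ) (by rw [Fintype.card_fin])
      (by
        exact hvo.comp _ Subtype.val_injective)
    have h2 := LinearMap.trace_eq_sum_inner S b'
    have h3 : ∑ i, inner ℝ (b' i) (S (b' i)) = -∑ i, inner ℝ (b i) (S (b i)) := by
      rw [← Finset.sum_neg_distrib]
      refine Finset.sum_congr rfl fun i _ => ?_
      rw [hb' i trivial]
      have h4 := key (φ (σ (b i))) (φ (σ (b i)))
      have h5 := key (σ (b i)) (σ (b i))
      rw [hfσ] at h5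
      rw [real_inner_comm, real_inner_comm _ (b i)]
      rw [h5, ← hφ2]
      exact h4
    rw [h3, ← h1] at h2
    linarith
  by_cases hA : D.J 0 A = 0
  · rw [hA]; simp
  have hn0 : 0 < ‖D.J 0 A‖ := norm_pos_iff.2 hA
  set n := ‖D.J 0 A‖ with hn
  have hfA0 : f A ≠ 0 := fun h => hA (congrArg Subtype.val h)
  have hmpos : 0 < m := by
    have : Nontrivial R := ⟨⟨f A, 0, hfA0⟩⟩
    exact Module.finrank_pos
  set u : R := f (n⁻¹ • A) with hu
  have hun : ‖u‖ = 1 := by
    change ‖D.J 0 (n⁻¹ • A)‖ = 1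
    rw [map_smul, norm_smul, norm_inv, ← hn, Real.norm_of_nonneg hn0.le, inv_mul_cancel₀ hn0.ne']
  set i0 : Fin m := ⟨0, hmpos⟩ with hi0
  obtain ⟨b, hb⟩ := Orthonormal.exists_orthonormalBasis_extension_of_card_eq
      (𝕜 := ℝ) (ι := Fin m) (v := fun _ => u) (s := {i0}) (by rw [Fintype.card_fin])
      (by
        rw [orthonormal_iff_ite]
        rintro ⟨i, hi⟩ ⟨j, hj⟩
        rw [mem_singleton_iff] at hi hj
        subst hi; subst hj
        simp [hun])
  have hb0 : b i0 = u := hb i0 rfl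
  have h1 := LinearMap.trace_eq_sum_inner S b
  rw [htr] at h1
  have hlow' : ∀ i, -c ≤ inner ℝ (b i) (S (b i)) := by
    intro i
    have h2 := hlow (σ (b i))
    have h3 := key (σ (b i)) (σ (b i))
    rw [hfσ] at h3
    rw [← h3, hJσ] at h2
    have h4 : ‖((b i : R) : E)‖ = 1 := b.norm_eq_one i
    rw [h4] at h2
    rw [real_inner_comm]
    linarith
  have h5 : inner ℝ (b i0) (S (b i0)) + ∑ i ∈ Finset.univ.erase i0, inner ℝ (b i) (S (b i)) = 0 := by
    rw [Finset.add_sum_erase _ (fun i => inner ℝ (b i) (S (b i))) (Finset.mem_univ i0)]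
    exact h1.symm
  have h6 : -(((m : ℝ) - 1) * c) ≤ ∑ i ∈ Finset.univ.erase i0, inner ℝ (b i) (S (b i)) := by
    have h7 := Finset.card_nsmul_le_sum (Finset.univ.erase i0) (fun i => inner ℝ (b i) (S (b i))) (-c)
      (fun i _ => hlow' i)
    rw [Finset.card_erase_of_mem (Finset.mem_univ i0), Finset.card_univ, Fintype.card_fin,
      nsmul_eq_mul, Nat.cast_sub hmpos] at h7
    push_cast at h7
    linarith
  have h8 : inner ℝ (b i0) (S (b i0)) ≤ ((m : ℝ) - 1) * c := by linarith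
  rw [hb0, real_inner_comm, hu, key, map_smul, map_smul, inner_smul_left, inner_smul_right] at h8
  simp only [RCLike.conj_to_real] at h8
  have h9 : n⁻¹ * (n⁻¹ * inner ℝ (D.J1 0 A) (D.J 0 A)) * n ^ 2 ≤ ((m : ℝ) - 1) * c * n ^ 2 :=
    mul_le_mul_of_nonneg_right h8 (by positivity)
  have h10 : n⁻¹ * (n⁻¹ * inner ℝ (D.J1 0 A) (D.J 0 A)) * n ^ 2 = inner ℝ (D.J1 0 A) (D.J 0 A) := by
    field_simp
  rw [h10] at h9
  exact h9

end

end

end Pool.Agent.Helper54.SO
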