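import Pool.Agent.Helper54.SO.C
import Pool.Agent.Helper54.SO.B
import Pool.Agent.Helper54.SO.S
import Pool.Agent.Helper54.SO.T

/-! Project SO: piece M, the main inequality. -/

namespace Pool.Agent.Helper54.SO

open Filter Topology Set

noncomputable section

section
variable {V E : Type*} [NormedAddCommGroup V] [NormedSpace ℝ V] [FiniteDimensional ℝ V]
    [NormedAddCommGroup E] [InnerProductSpace ℝ E] [FiniteDimensional ℝ E] {k T : ℝ}

theorem JF.exists_min (D : JF V E k T) (ξ : V →ₗ[ℝ] ℝ) (A₀ : V) (h : ξ A₀ = 1) (t : ℝ) :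
    ∃ A, ξ A = 1 ∧ ∀ B, ξ B = 0 → inner ℝ (D.J t A) (D.J t B) = 0 := by
  set W : Submodule ℝ E := (LinearMap.ker ξ).map (D.J t).toLinearMap with hW
  have h1 : W.starProjection (D.J t A₀) ∈ W := Submodule.starProjection_apply_mem _ _
  obtain ⟨C, hC, hC'⟩ := h1
  have hC0 : ξ C = 0 := hC
  refine ⟨A₀ - C, by rw [map_sub, h, hC0, sub_zero], fun B hB => ?_⟩
  have h2 : D.J t A₀ - W.starProjection (D.J t A₀) ∈ Wᗮ :=
    Submodule.sub_starProjection_mem_orthogonal _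
  have h3 : D.J t B ∈ W := ⟨B, hB, rfl⟩
  have h4 : D.J t (A₀ - C) = D.J t A₀ - W.starProjection (D.J t A₀) := by
    rw [map_sub, ← hC']; rfl
  rw [h4]
  exact (Submodule.mem_orthogonal' _ _).1 h2 _ h3

theorem JF.min_le (D : JF V E k T) (ξ : V →ₗ[ℝ] ℝ) {A B : V} {t : ℝ} (hA : ξ A = 1)
    (horth : ∀ B, ξ B = 0 → inner ℝ (D.J t A) (D.J t B) = 0) (hB : ξ B = 1) :
    ‖D.J t A‖ ≤ ‖D.J t B‖ := by
  have h1 := horth (B - A) (by rw [map_sub, hA, hB, sub_self])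
  have h2 : D.J t B = D.J t A + D.J t (B - A) := by rw [map_sub]; abel
  apply le_of_sq_le_sq _ (norm_nonneg _)
  rw [h2, norm_add_sq_real, h1]
  nlinarith [sq_nonneg ‖D.J t (B - A)‖]

theorem JF.cmp (D : JF V E k T) (hk : 0 < k) (hT : 0 < T) (ξ : V →ₗ[ℝ] ℝ)
    (hξ : ∀ A, D.J 0 A = 0 → ξ A = 0) {A₀ : V} (h1 : ξ A₀ = 1)
    (h2 : ∀ B, ξ B = 0 → inner ℝ (D.J 0 A₀) (D.J 0 B) = 0) {t : ℝ} (ht : t ∈ Ico 0 T) {A : V}
    (hA : ξ A = 1) (hAo : ∀ B, ξ B = 0 → inner ℝ (D.J t A) (D.J t B) = 0) :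
    ‖D.J t A‖ ≤ ‖D.J 0 A₀‖ * Real.cosh (k * t) +
      inner ℝ (D.J1 0 A₀) (D.J 0 A₀) / ‖D.J 0 A₀‖ / k * Real.sinh (k * t) := by
  have h0T : (0:ℝ) ∈ Ioo (-T) T := ⟨by linarith, hT⟩
  choose M hM1 hM2 using D.exists_min ξ A₀ h1
  set y : ℝ → ℝ := fun s => ‖D.J s (M s)‖ with hy
  have hyle : ∀ s B, ξ B = 1 → y s ≤ ‖D.J s B‖ := fun s B hB => D.min_le ξ (hM1 s) (hM2 s) hB
  have hy0 : y 0 = ‖D.J 0 A₀‖ := le_antisymm (hyle 0 A₀ h1) (D.min_le ξ h1 h2 (hM1 0))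
  have hyt : y t = ‖D.J t A‖ := le_antisymm (hyle t A hA) (D.min_le ξ hA hAo (hM1 t))
  have hne : ∀ s ∈ Ico 0 T, ∀ B, ξ B = 1 → D.J s B ≠ 0 := by
    intro s hs B hB h
    have h3 : D.J 0 B = 0 := by
      rcases eq_or_lt_of_le hs.1 with h0 | h0
      · subst h0; exact h
      · exact D.ker s ⟨h0, hs.2⟩ B h 0 h0T
    have := hξ B h3
    linarith
  have hpos : ∀ s ∈ Ico 0 T, 0 < y s := fun s hs => norm_pos_iff.2 (hne s hs _ (hM1 s))
  have hlsc : ∀ s ∈ Ico 0 T, LowerSemicontinuousWithinAt y (Ico 0 T) s := by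
    intro s hs c hc
    have hys := hpos s hs
    set δ : ℝ := min (1 / 2) ((y s - c) / (2 * y s)) with hδ
    have hδ0 : 0 < δ := lt_min (by norm_num) (div_pos (by linarith) (by linarith))
    have hδ1 : δ < 1 := (min_le_left _ _).trans_lt (by norm_num)
    have hδ2 : δ * y s ≤ (y s - c) / 2 := by
      have h3 : δ ≤ (y s - c) / (2 * y s) := min_le_right _ _
      have h4 := mul_le_mul_of_nonneg_right h3 hys.le
      have h5 : (y s - c) / (2 * y s) * y s = (y s - c) / 2 := by field_simp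
      rwa [h5] at h4
    filter_upwards [D.stmtS ξ hξ s hs δ hδ0 hδ1] with r hr
    obtain ⟨B, hB1, hB2⟩ := hr (M r)
    rw [hM1] at hB1
    have h3 := hyle s B hB1
    have h4 : (1 - δ) * y s ≤ (1 - δ) * ‖D.J s B‖ := mul_le_mul_of_nonneg_left h3 (by linarith)
    have h5 : (1 - δ) * ‖D.J s B‖ ≤ y r := hB2
    nlinarith
  have hbarr : ∀ s ∈ Ioo 0 T, Barrier k y s := by
    intro s hs
    obtain ⟨z, z', z'', hz1, hz2, hz3, hz4, hz5⟩ := D.stmtB ξ s hs (M s) (hM1 s) (hM2 s)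
      (hne s ⟨hs.1.le, hs.2⟩ _ (hM1 s))
    refine ⟨z, z', z'', ?_, hz2, hz3, hz4, hz5⟩
    filter_upwards with r
    obtain ⟨B, hB1, hB2⟩ := hz1 r
    rw [hB2]
    exact hyle r B hB1
  have hn : D.J 0 A₀ ≠ 0 := hne 0 ⟨le_rfl, hT⟩ A₀ h1
  have hj : HasDerivAt (fun s => ‖D.J s A₀‖) (inner ℝ (D.J1 0 A₀) (D.J 0 A₀) / ‖D.J 0 A₀‖) 0 := by
    have hJ : HasDerivAt (fun s => D.J s A₀) (D.J1 0 A₀) 0 := by
      simpa using (D.d0 0 h0T).clm_apply (hasDerivAt_const (0:ℝ) A₀)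
    have hpos' : inner ℝ (D.J 0 A₀) (D.J 0 A₀) ≠ 0 := by
      rw [real_inner_self_eq_norm_sq]; exact pow_ne_zero _ (norm_ne_zero_iff.2 hn)
    have h4 := (hJ.inner ℝ hJ).sqrt hpos'
    have h5 : (fun s => ‖D.J s A₀‖) = fun s => √(inner ℝ (D.J s A₀) (D.J s A₀)) := by
      funext r; rw [norm_eq_sqrt_real_inner]
    have h6 : inner ℝ (D.J1 0 A₀) (D.J 0 A₀) / ‖D.J 0 A₀‖ =
        (inner ℝ (D.J 0 A₀) (D.J1 0 A₀) + inner ℝ (D.J1 0 A₀) (D.J 0 A₀)) /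
          (2 * √(inner ℝ (D.J 0 A₀) (D.J 0 A₀))) := by
      rw [← norm_eq_sqrt_real_inner, real_inner_comm (D.J1 0 A₀) (D.J 0 A₀)]
      have : ‖D.J 0 A₀‖ ≠ 0 := norm_ne_zero_iff.2 hn
      field_simp
      ring
    rw [h5, h6]; exact h4
  have := stmtC k T hk hT y hlsc hbarr (fun s => ‖D.J s A₀‖) _ hj hy0.symm
    (fun s _ => hyle s A₀ h1) t ht
  rw [hyt, hy0] at this
  exact this

theorem JF.lower (D : JF V E k T) (hk : 0 < k) (hT : 0 < T) (A : V) :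
    -(k * (Real.cosh (k * T) / Real.sinh (k * T))) * ‖D.J 0 A‖ ^ 2 ≤
      inner ℝ (D.J1 0 A) (D.J 0 A) := by
  by_cases hA : D.J 0 A = 0
  · rw [hA]; simp
  set n := ‖D.J 0 A‖ with hn
  have hn0 : 0 < n := norm_pos_iff.2 hA
  set ξ : V →ₗ[ℝ] ℝ := (1 / n ^ 2) • ((innerₛₗ ℝ (D.J 0 A)) ∘ₗ (D.J 0).toLinearMap) with hξ
  have hξa : ∀ B, ξ B = 1 / n ^ 2 * inner ℝ (D.J 0 A) (D.J 0 B) := fun B => rfl
  have h1 : ξ A = 1 := by
    rw [hξa, real_inner_self_eq_norm_sq, ← hn]; field_simp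
  have h2 : ∀ B, ξ B = 0 → inner ℝ (D.J 0 A) (D.J 0 B) = 0 := by
    intro B hB
    rw [hξa] at hB
    rcases mul_eq_zero.1 hB with h | h
    · exfalso; have : 0 < 1 / n ^ 2 := by positivity
      linarith
    · exact h
  have h3 : ∀ B, D.J 0 B = 0 → ξ B = 0 := by
    intro B hB
    rw [hξa, hB, inner_zero_right, mul_zero]
  set q := inner ℝ (D.J1 0 A) (D.J 0 A) with hq
  have h4 : ∀ t ∈ Ico 0 T, 0 ≤ n * Real.cosh (k * t) + q / n / k * Real.sinh (k * t) := by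
    intro t ht
    obtain ⟨B, hB1, hB2⟩ := D.exists_min ξ A h1 t
    exact (norm_nonneg _).trans (D.cmp hk hT ξ h3 h1 h2 ht hB1 hB2)
  have h5 : 0 ≤ n * Real.cosh (k * T) + q / n / k * Real.sinh (k * T) := by
    have hlim : Tendsto (fun t : ℝ => n * Real.cosh (k * t) + q / n / k * Real.sinh (k * t))
        (𝓝[<] T) (𝓝 (n * Real.cosh (k * T) + q / n / k * Real.sinh (k * T))) := by
      apply Tendsto.mono_left _ nhdsWithin_le_nhds
      apply Continuous.tendsto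
      fun_prop
    refine ge_of_tendsto hlim ?_
    filter_upwards [Ioo_mem_nhdsLT hT] with t ht
    exact h4 t ⟨ht.1.le, ht.2⟩
  have hs : 0 < Real.sinh (k * T) := Real.sinh_pos_iff.2 (mul_pos hk hT)
  have h6 : 0 ≤ (n * Real.cosh (k * T) + q / n / k * Real.sinh (k * T)) * (k * n / Real.sinh (k * T)) :=
    mul_nonneg h5 (by positivity)
  have h7 : (n * Real.cosh (k * T) + q / n / k * Real.sinh (k * T)) * (k * n / Real.sinh (k * T)) =
      k * (Real.cosh (k * T) / Real.sinh (k * T)) * n ^ 2 + q := by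
    field_simp
  rw [h7] at h6
  linarith

theorem JF.stmtM (D : JF V E k T) (hk : 0 < k) (hT : 0 < T) : D.StmtM := by
  intro t ht
  have htI : t ∈ Ico 0 T := ⟨ht.1.le, ht.2⟩
  set K : Submodule ℝ V := LinearMap.ker (D.J 0).toLinearMap with hK
  set f : K →ₗ[ℝ] E := (D.J t).toLinearMap ∘ₗ K.subtype with hf
  set W := LinearMap.range f with hW
  obtain ⟨τ, hτ⟩ := f.rangeRestrict.exists_rightInverse_of_surjective (LinearMap.range_rangeRestrict f)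
  have hfτ : ∀ w : W, f (τ w) = w := fun w => congrArg Subtype.val (LinearMap.congr_fun hτ w)
  set P : V →ₗ[ℝ] V :=
    K.subtype ∘ₗ τ ∘ₗ W.orthogonalProjectionOnto.toLinearMap ∘ₗ (D.J t).toLinearMap with hP
  have hPK : ∀ A, D.J 0 (P A) = 0 := fun A => (τ (W.orthogonalProjectionOnto (D.J t A))).2
  have hJP : ∀ A, D.J t (P A) = W.starProjection (D.J t A) := fun A =>
    hfτ (W.orthogonalProjectionOnto (D.J t A))
  refine ⟨P, hPK, fun A => ?_⟩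
  set v : E := D.J t (A - P A) with hv
  have hvW : v ∈ Wᗮ := by
    rw [hv, map_sub, hJP]; exact Submodule.sub_starProjection_mem_orthogonal _
  set m := Module.finrank ℝ (LinearMap.range (D.J 0).toLinearMap) with hm
  by_cases hv0 : v = 0
  · rw [hv0, norm_zero]
    have := (Real.cosh_pos (k * T)).le
    positivity
  have hn0 : 0 < ‖v‖ := norm_pos_iff.2 hv0
  set ξ : V →ₗ[ℝ] ℝ := (1 / ‖v‖ ^ 2) • ((innerₛₗ ℝ v) ∘ₗ (D.J t).toLinearMap) with hξ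
  have hξa : ∀ B, ξ B = 1 / ‖v‖ ^ 2 * inner ℝ v (D.J t B) := fun B => rfl
  have hξK : ∀ B, D.J 0 B = 0 → ξ B = 0 := by
    intro B hB
    have h1 : D.J t B ∈ W := ⟨⟨B, hB⟩, rfl⟩
    rw [hξa, (Submodule.mem_orthogonal' _ _).1 hvW _ h1, mul_zero]
  have h1 : ξ (A - P A) = 1 := by
    rw [hξa, ← hv, real_inner_self_eq_norm_sq]; field_simp
  have h1' : ξ A = 1 := by
    have := hξK (P A) (hPK A)
    rw [map_sub, this, sub_zero] at h1
    exact h1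
  have h2 : ∀ B, ξ B = 0 → inner ℝ (D.J t (A - P A)) (D.J t B) = 0 := by
    intro B hB
    rw [hξa] at hB
    rcases mul_eq_zero.1 hB with h | h
    · exfalso; have : 0 < 1 / ‖v‖ ^ 2 := by positivity
      linarith
    · exact h
  obtain ⟨A₀, hA₀, hA₀o⟩ := D.exists_min ξ A h1' 0
  have h3 := D.cmp hk hT ξ hξK hA₀ hA₀o htI h1 h2
  have h4 : ‖D.J 0 A₀‖ ≤ ‖D.J 0 A‖ := D.min_le ξ hA₀ hA₀o h1'
  have hne : D.J 0 A₀ ≠ 0 := by
    intro h
    have := hξK A₀ h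
    linarith
  set n := ‖D.J 0 A₀‖ with hn
  have hnpos : 0 < n := norm_pos_iff.2 hne
  have hmpos : 0 < m := by
    have : Nontrivial (LinearMap.range (D.J 0).toLinearMap) :=
      ⟨⟨⟨D.J 0 A₀, ⟨A₀, rfl⟩⟩, 0, fun h => hne (congrArg Subtype.val h)⟩⟩
    exact Module.finrank_pos
  have hm1 : (1:ℝ) ≤ m := by exact_mod_cast hmpos
  have hs : 0 < Real.sinh (k * T) := Real.sinh_pos_iff.2 (mul_pos hk hT)
  have hc : 0 < Real.cosh (k * T) := Real.cosh_pos _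
  set c : ℝ := k * (Real.cosh (k * T) / Real.sinh (k * T)) with hcdef
  have hc0 : 0 ≤ c := by positivity
  have h5 : inner ℝ (D.J1 0 A₀) (D.J 0 A₀) ≤ ((m : ℝ) - 1) * c * n ^ 2 :=
    D.stmtT hT c hc0 (fun B => D.lower hk hT B) A₀
  have hst : 0 ≤ Real.sinh (k * t) := Real.sinh_nonneg_iff.2 (mul_nonneg hk.le ht.1.le)
  have hkt : k * t ≤ k * T := mul_le_mul_of_nonneg_left ht.2.le hk.le
  have h6 : inner ℝ (D.J1 0 A₀) (D.J 0 A₀) / n / k ≤
      ((m : ℝ) - 1) * (Real.cosh (k * T) / Real.sinh (k * T)) * n := by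
    rw [div_div, div_le_iff₀ (by positivity)]
    calc inner ℝ (D.J1 0 A₀) (D.J 0 A₀) ≤ ((m : ℝ) - 1) * c * n ^ 2 := h5
      _ = ((m : ℝ) - 1) * (Real.cosh (k * T) / Real.sinh (k * T)) * n * (n * k) := by
        rw [hcdef]; ring
  have h7 : inner ℝ (D.J1 0 A₀) (D.J 0 A₀) / n / k * Real.sinh (k * t) ≤
      ((m : ℝ) - 1) * (Real.cosh (k * T) / Real.sinh (k * T)) * n * Real.sinh (k * T) := by
    have h8 : Real.sinh (k * t) ≤ Real.sinh (k * T) := Real.sinh_le_sinh.2 hkt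
    have h9 : 0 ≤ ((m : ℝ) - 1) * (Real.cosh (k * T) / Real.sinh (k * T)) * n := by
      have : 0 ≤ (m : ℝ) - 1 := by linarith
      positivity
    exact (mul_le_mul_of_nonneg_right h6 hst).trans (mul_le_mul_of_nonneg_left h8 h9)
  have h10 : ((m : ℝ) - 1) * (Real.cosh (k * T) / Real.sinh (k * T)) * n * Real.sinh (k * T) =
      ((m : ℝ) - 1) * Real.cosh (k * T) * n := by
    field_simp
  have h11 : Real.cosh (k * t) ≤ Real.cosh (k * T) := by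
    rw [Real.cosh_le_cosh, abs_of_nonneg (mul_nonneg hk.le ht.1.le),
      abs_of_nonneg (mul_nonneg hk.le hT.le)]
    exact hkt
  have h12 : n * Real.cosh (k * t) ≤ n * Real.cosh (k * T) := mul_le_mul_of_nonneg_left h11 hnpos.le
  rw [h10] at h7
  calc ‖v‖ ≤ n * Real.cosh (k * T) + ((m : ℝ) - 1) * Real.cosh (k * T) * n := by linarith
    _ = (m : ℝ) * Real.cosh (k * T) * n := by ring
    _ ≤ (m : ℝ) * Real.cosh (k * T) * ‖D.J 0 A‖ := mul_le_mul_of_nonneg_left h4 (by positivity)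

end

end

end Pool.Agent.Helper54.SO
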