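import Pool.Agent.Helper54.SO.M
import Pool.Agent.Helper54.SO.X

/-! MP_2d033b_gt (weak smoothability of compact Alexandrov spaces): small singular orbits of
cohomogeneity one manifolds, and equivariant limits. -/

namespace Pool.Agent.Helper54.SO.ResultV1

open Pool.Agent.Helper54.SO Filter Topology Set

noncomputable section

section
variable {E : Type*} [NormedAddCommGroup E] [InnerProductSpace ℝ E] [FiniteDimensional ℝ E]
  {Γ : Type*} [Group Γ] {k T : ℝ}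

/-- Every point `g p` of the orbit of `p = γ 0` is the end point of a broken path of one parameter
arcs, in this orbit, from `p` and of total length at most `ℓ`. -/
def DiamLe (D : End E Γ k T) (ℓ : ℝ) : Prop :=
  ∀ g : Γ, ∃ (l : Γ) (a : ℝ), D.ρ l (D.γ 0) = D.γ 0 ∧ D.Broken (g * l) a ∧ a ≤ ℓ

/-- The part used here of an equivariant `ε`-approximation (Fukaya) of `(X, G)` by `(M, Γ)`. -/
structure Approx (D : End E Γ k T) (X : Type*) [MetricSpace X] (G : Type*) [Group G]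
    [MulAction G X] (ε : ℝ) where
  F : E → X
  φ : Γ → G
  ψ : G → Γ
  dist_le : ∀ a, ∀ y z, JoinLe D.M a y z → dist (F y) (F z) ≤ a + ε
  equi : ∀ g, ∀ y ∈ D.M, dist (F (D.ρ g y)) (φ g • F y) ≤ ε
  equi' : ∀ g, ∀ y ∈ D.M, dist (F (D.ρ (ψ g) y)) (g • F y) ≤ ε

theorem broken_nonneg (D : End E Γ k T) {g : Γ} {a : ℝ} (h : D.Broken g a) : 0 ≤ a := by
  induction h with
  | one => exact le_rfl
  | step g h a A _ _ _ ih => exact add_nonneg ih (norm_nonneg _)

theorem core (D : End E Γ k T) (hk : 0 < k) {ℓ : ℝ} (hℓ : DiamLe D ℓ) {t : ℝ} (ht : t ∈ Ioo 0 T)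
    (g : Γ) {δ : ℝ} (hδ : 0 < δ) : ∃ l : Γ, D.ρ l (D.γ 0) = D.γ 0 ∧
      JoinLe (D.orb (D.γ t)) ((D.dim : ℝ) * Real.cosh (k * T) * ℓ + δ) (D.ρ l (D.γ t))
        (D.ρ g (D.γ t)) := by
  have hT : 0 < T := ht.1.trans ht.2
  obtain ⟨P, hP0, hP⟩ := (D.toJF hT).stmtM hk hT t ht
  obtain ⟨l₀, a, hl₀, hB, ha⟩ := hℓ g
  have hC : (0:ℝ) ≤ (D.dim : ℝ) * Real.cosh (k * T) :=
    mul_nonneg (Nat.cast_nonneg _) (Real.cosh_pos _).le
  have hl₀' : D.ρ l₀⁻¹ (D.γ 0) = D.γ 0 := by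
    have h1 := D.ρ_mul l₀⁻¹ l₀ (D.γ 0)
    rw [inv_mul_cancel, D.ρ_one, hl₀] at h1
    exact h1.symm
  obtain ⟨l, hl, hJ⟩ := D.stmtX t ((D.dim : ℝ) * Real.cosh (k * T)) hC P hP0 hP (g * l₀) a hB l₀⁻¹
    hl₀' δ hδ
  refine ⟨l, hl, ?_⟩
  rw [mul_inv_cancel_right] at hJ
  exact hJ.mono (add_le_add_left (mul_le_mul_of_nonneg_left ha hC) δ)

end

theorem joinLe_subset {E : Type*} [NormedAddCommGroup E] {S S' : Set E} {a : ℝ} {x y : E}
    (h : JoinLe S a x y) (hS : S ⊆ S') : JoinLe S' a x y := by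
  obtain ⟨ha, c, hc, hcS, h0, h1⟩ := h
  exact ⟨ha, c, hc, fun s hs => hS (hcS s hs), h0, h1⟩

/-- Equivariant limits of cohomogeneity one manifolds with small singular orbits: the limits of the
isotropy groups of the points `p_n = γ_n 0` of the singular orbits are transitive on the orbit
of `x`. -/
theorem result_v1 {E Γ : ℕ → Type*} [∀ n, NormedAddCommGroup (E n)]
    [∀ n, InnerProductSpace ℝ (E n)] [∀ n, FiniteDimensional ℝ (E n)] [∀ n, Group (Γ n)] {k T : ℝ}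
    (hk : 0 < k) (D : ∀ n, End (E n) (Γ n) k T) (m : ℕ) (hm : ∀ n, (D n).dim ≤ m)
    (ℓ : ℕ → ℝ) (hℓ : ∀ n, DiamLe (D n) (ℓ n)) (hℓ0 : Tendsto ℓ atTop (𝓝 0))
    {X : Type*} [MetricSpace X] {G : Type*} [Group G] [TopologicalSpace G] [CompactSpace G]
    [MulAction G X] [ContinuousSMul G X] [IsIsometricSMul G X]
    (ε : ℕ → ℝ) (A : ∀ n, Approx (D n) X G (ε n)) (hε : Tendsto ε atTop (𝓝 0))
    (t : ℕ → ℝ) (ht : ∀ n, t n ∈ Ioo 0 T) (x : X)
    (hx : Tendsto (fun n => (A n).F ((D n).γ (t n))) atTop (𝓝 x))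
    (U : Ultrafilter ℕ) (hU : (U : Filter ℕ) ≤ atTop) (g : G) :
    ∃ (l : G) (L : ∀ n, Γ n), (∀ n, (D n).ρ (L n) ((D n).γ 0) = (D n).γ 0) ∧
      Tendsto (fun n => (A n).φ (L n)) U (𝓝 l) ∧ g • x = l • x := by
  set δ : ℕ → ℝ := fun n => 1 / ((n:ℝ) + 1) with hδdef
  have hδ : ∀ n, 0 < δ n := fun n => by simp only [hδdef]; positivity
  have hδ0 : Tendsto δ atTop (𝓝 0) := tendsto_one_div_add_atTop_nhds_zero_nat
  choose L hL hJ using fun n => core (D n) hk (hℓ n) (ht n) ((A n).ψ g) (hδ n)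
  set q : ∀ n, E n := fun n => (D n).γ (t n) with hq
  have hqM : ∀ n, q n ∈ (D n).M := fun n =>
    (D n).mem _ ⟨by linarith [(ht n).1, (ht n).2], (ht n).2⟩
  have horb : ∀ n, (D n).orb (q n) ⊆ (D n).M := by
    rintro n y ⟨h, rfl⟩
    exact (D n).inv h _ (hqM n)
  have hℓn : ∀ n, 0 ≤ ℓ n := by
    intro n
    obtain ⟨l, a, -, hB, ha⟩ := hℓ n 1
    exact (broken_nonneg (D n) hB).trans ha
  set C : ℝ := (m : ℝ) * Real.cosh (k * T) with hC
  have hest : ∀ n, dist (g • x) ((A n).φ (L n) • x) ≤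
      2 * dist ((A n).F (q n)) x + 3 * ε n + (C * ℓ n + δ n) := by
    intro n
    have h1 : dist (g • x) (g • (A n).F (q n)) = dist ((A n).F (q n)) x := by
      rw [dist_smul, dist_comm]
    have h2 : dist ((A n).φ (L n) • (A n).F (q n)) ((A n).φ (L n) • x) =
        dist ((A n).F (q n)) x := dist_smul _ _ _
    have h3 : dist (g • (A n).F (q n)) ((A n).F ((D n).ρ ((A n).ψ g) (q n))) ≤ ε n := by
      rw [dist_comm]; exact (A n).equi' g (q n) (hqM n)
    have h4 := (A n).equi (L n) (q n) (hqM n)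
    have h5 : dist ((A n).F ((D n).ρ ((A n).ψ g) (q n))) ((A n).F ((D n).ρ (L n) (q n))) ≤
        ((D n).dim : ℝ) * Real.cosh (k * T) * ℓ n + δ n + ε n := by
      rw [dist_comm]; exact (A n).dist_le _ _ _ (joinLe_subset (hJ n) (horb n))
    have h6 : ((D n).dim : ℝ) * Real.cosh (k * T) * ℓ n ≤ C * ℓ n := by
      refine mul_le_mul_of_nonneg_right ?_ (hℓn n)
      exact mul_le_mul_of_nonneg_right (by exact_mod_cast hm n) (Real.cosh_pos _).le
    have t1 := dist_triangle (g • x) (g • (A n).F (q n)) ((A n).φ (L n) • x)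
    have t2 := dist_triangle (g • (A n).F (q n)) ((A n).F ((D n).ρ ((A n).ψ g) (q n)))
      ((A n).φ (L n) • x)
    have t3 := dist_triangle ((A n).F ((D n).ρ ((A n).ψ g) (q n))) ((A n).F ((D n).ρ (L n) (q n)))
      ((A n).φ (L n) • x)
    have t4 := dist_triangle ((A n).F ((D n).ρ (L n) (q n))) ((A n).φ (L n) • (A n).F (q n))
      ((A n).φ (L n) • x)
    linarith
  have hlim : Tendsto (fun n => dist (g • x) ((A n).φ (L n) • x)) U (𝓝 0) := by
    have h1 : Tendsto (fun n => dist ((A n).F (q n)) x) atTop (𝓝 0) :=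
      tendsto_iff_dist_tendsto_zero.1 hx
    have h2 : Tendsto (fun n => 2 * dist ((A n).F (q n)) x + 3 * ε n + (C * ℓ n + δ n)) atTop
        (𝓝 0) := by
      have h3 := ((h1.const_mul 2).add (hε.const_mul 3)).add ((hℓ0.const_mul C).add hδ0)
      simpa using h3
    exact squeeze_zero (fun n => dist_nonneg) hest (h2.mono_left hU)
  set V : Ultrafilter G := U.map (fun n => (A n).φ (L n)) with hV
  have hVl : Tendsto (fun n => (A n).φ (L n)) U (𝓝 V.lim) := V.le_nhds_lim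
  refine ⟨V.lim, L, hL, hVl, ?_⟩
  have h1 : Tendsto (fun n => dist (g • x) ((A n).φ (L n) • x)) U (𝓝 (dist (g • x) (V.lim • x))) :=
    tendsto_const_nhds.dist (hVl.smul_const x)
  exact dist_eq_zero.1 (tendsto_nhds_unique h1 hlim)

end

end Pool.Agent.Helper54.SO.ResultV1
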