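import Pool.Agent.Helper54.SO.Defs
import Pool.Agent.Helper54.SO.JF

/-! Project SO (MP_2d033b_gt): statements of the geometric pieces. -/

namespace Pool.Agent.Helper54.SO

open Filter Topology Set

noncomputable section

variable {E : Type*} [NormedAddCommGroup E] [InnerProductSpace ℝ E] [FiniteDimensional ℝ E]
  {Γ : Type*} [Group Γ] {k T : ℝ}

/-- the orbit of `x` -/
def End.orb (D : End E Γ k T) (x : E) : Set E := {y | ∃ g, y = D.ρ g x}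

/-- Piece X: the step along exponentials. `C` is the constant of the main inequality at the time `t`.
-/
def End.StmtX (D : End E Γ k T) : Prop := ∀ (t C : ℝ), 0 ≤ C → ∀ P : D.𝔤 →ₗ[ℝ] D.𝔤,
  (∀ A, ev D.𝔤 (D.γ 0) (P A) = 0) →
  (∀ A, ‖ev D.𝔤 (D.γ t) (A - P A)‖ ≤ C * ‖ev D.𝔤 (D.γ 0) A‖) →
  ∀ (g : Γ) (a : ℝ), D.Broken g a → ∀ l : Γ, D.ρ l (D.γ 0) = D.γ 0 → ∀ δ : ℝ, 0 < δ →
  ∃ h : Γ, D.ρ h (D.γ 0) = D.γ 0 ∧
    JoinLe (D.orb (D.γ t)) (C * a + δ) (D.ρ h (D.γ t)) (D.ρ (g * l) (D.γ t))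

end

end Pool.Agent.Helper54.SO
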