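import Pool.Agent.Helper54.SO.Defs

/-! Project SO: the tube around the end orbit. -/

namespace Pool.Agent.Helper54.SO

open Filter Topology Set
open scoped ContDiff

noncomputable section

/-- The tube of radius `T` around the orbit of `p = γ 0`: `M` is an embedded submanifold (locally a
smooth retract), every point of `M` is `ρ g (γ s)` with `0 ≤ s < T`, `s` and the foot point
`ρ g (γ 0)` are determined by the point, and near `p` the number `s` is at most twice the distance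
to `p` and the orbit of `p` is parametrised by the exponential. -/
structure Tube (E : Type*) [NormedAddCommGroup E] [InnerProductSpace ℝ E] [FiniteDimensional ℝ E]
    (Γ : Type*) [Group Γ] (k T : ℝ) extends End E Γ k T where
  retr : ∀ y ∈ M, ∃ r : E → E, ContDiffAt ℝ ∞ r y ∧ ∀ᶠ z in 𝓝 y, r z ∈ M ∧ (z ∈ M → r z = z)
  tube : ∀ y ∈ M, ∃ g, ∃ s ∈ Ico 0 T, y = ρ g (γ s)
  foot : ∀ g g' : Γ, ∀ s ∈ Ico 0 T, ∀ s' ∈ Ico 0 T, ρ g (γ s) = ρ g' (γ s') →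
    s = s' ∧ ρ g (γ 0) = ρ g' (γ 0)
  near : ∃ r > 0, ∀ g, ∀ s ∈ Ico 0 T, ‖ρ g (γ s) - γ 0‖ < r → s ≤ 2 * ‖ρ g (γ s) - γ 0‖
  orbit : ∃ r > 0, ∀ g, ‖ρ g (γ 0) - γ 0‖ < r →
    ∃ A ∈ 𝔤, NormedSpace.exp A (γ 0) = ρ g (γ 0) ∧ ‖A (γ 0)‖ ≤ 2 * ‖ρ g (γ 0) - γ 0‖

end

end Pool.Agent.Helper54.SO
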